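import Pool.Agent.U785.LE.Meas

set_option autoImplicit false

/-! # Weak limits -/

open Filter Topology MeasureTheory Metric BoundedContinuousFunction

namespace Pool.Agent.U785.LE

variable {n : ℕ} {c : ℂ}

/-- The bounded continuous approximation of the logarithm. -/
noncomputable def appr (δ : ℝ) (hδ : 0 < δ) : ℂ →ᵇ ℝ :=
  BoundedContinuousFunction.ofNormedAddCommGroup (fun z : ℂ => Real.log (min ‖z‖ 2 + δ))
    (by
      apply Continuous.log (by fun_prop)
      intro z
      have : 0 ≤ min ‖z‖ 2 := le_min (norm_nonneg _) (by norm_num)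
      positivity)
    (|Real.log δ| + |Real.log (2 + δ)|) (by
      intro z
      have h0 : 0 ≤ min ‖z‖ 2 := le_min (norm_nonneg _) (by norm_num)
      have h00 : min ‖z‖ 2 ≤ 2 := min_le_right _ _
      have h1 : Real.log δ ≤ Real.log (min ‖z‖ 2 + δ) := Real.log_le_log hδ (by linarith)
      have h2 : Real.log (min ‖z‖ 2 + δ) ≤ Real.log (2 + δ) :=
        Real.log_le_log (by linarith) (by linarith)
      rw [Real.norm_eq_abs, abs_le]
      constructor
      · linarith [neg_abs_le (Real.log δ), abs_nonneg (Real.log (2 + δ))]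
      · linarith [le_abs_self (Real.log (2 + δ)), abs_nonneg (Real.log δ)])

lemma Thin.integral_appr {ε ρ : ℝ} {μ : Measure ℂ} (h : Thin ε ρ μ) {δ : ℝ} (hδ : 0 < δ) :
    ∫ z, appr δ hδ z ∂μ = ∫ z, Real.log (‖z‖ + δ) ∂μ := by
  apply integral_congr_ae
  filter_upwards [h.bdd] with z hz
  simp only [appr, BoundedContinuousFunction.coe_ofNormedAddCommGroup]
  rw [min_eq_left hz]

/-- The exponent is continuous on the class of thin measures. -/
theorem tendsto_log {ι : Type*} {L : Filter ι} {μ : ι → ProbabilityMeasure ℂ}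
    {ν : ProbabilityMeasure ℂ} {ε ρ : ℝ} (hε : 0 < ε) (hρ : 0 < ρ)
    (h : ∀ᶠ i in L, Thin ε ρ (μ i : Measure ℂ)) (hν : Thin ε ρ (ν : Measure ℂ))
    (hlim : Tendsto μ L (𝓝 ν)) :
    Tendsto (fun i => ∫ z, Real.log ‖z‖ ∂(μ i : Measure ℂ)) L
      (𝓝 (∫ z, Real.log ‖z‖ ∂(ν : Measure ℂ))) := by
  rw [Metric.tendsto_nhds]
  intro κ hκ
  obtain ⟨δ, hδ, -, h1⟩ := unif_appr hε hρ (κ := κ / 4) (by positivity)
  have h2 := (ProbabilityMeasure.tendsto_iff_forall_integral_tendsto.mp hlim) (appr δ hδ)
  rw [Metric.tendsto_nhds] at h2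
  filter_upwards [h, h2 (κ / 4) (by positivity)] with i hi1 hi2
  rw [hi1.integral_appr hδ, hν.integral_appr hδ, Real.dist_eq, abs_lt] at hi2
  have h3 := h1 _ hi1
  have h4 := h1 _ hν
  rw [Real.dist_eq, abs_lt]
  constructor
  · linarith [hi2.1, h3.1, h3.2, h4.1, h4.2]
  · linarith [hi2.2, h3.1, h3.2, h4.1, h4.2]

/-- Limits of invariant measures are invariant. -/
theorem inv_of_tendsto {ι : Type*} {L : Filter ι} [NeBot L] {a : ι → ℂ}
    {μ : ι → ProbabilityMeasure ℂ} {ν : ProbabilityMeasure ℂ}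
    (h : ∀ᶠ i in L, Inv n (a i) (μ i) ∧ ∀ᵐ z ∂(μ i : Measure ℂ), ‖z‖ ≤ 2)
    (ha : Tendsto a L (𝓝 c)) (hlim : Tendsto μ L (𝓝 ν)) : Inv n c ν := by
  unfold Inv
  have hp : IsProbabilityMeasure (Measure.map (f n c) (ν : Measure ℂ)) :=
    Measure.isProbabilityMeasure_map (meas_f n c).aemeasurable
  apply ext_of_forall_integral_eq_of_IsFiniteMeasure
  intro g
  rw [integral_map (meas_f n c).aemeasurable g.continuous.aestronglyMeasurable]
  have h1 := (ProbabilityMeasure.tendsto_iff_forall_integral_tendsto.mp hlim) g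
  have h2 := (ProbabilityMeasure.tendsto_iff_forall_integral_tendsto.mp hlim)
    (g.compContinuous ⟨f n c, continuous_f n c⟩)
  simp only [BoundedContinuousFunction.compContinuous_apply, ContinuousMap.coe_mk] at h2
  -- the difference tends to zero
  have h3 : Tendsto (fun i => ∫ z, g (f n c z) ∂(μ i : Measure ℂ) - ∫ z, g z ∂(μ i : Measure ℂ)) L
      (𝓝 0) := by
    rw [Metric.tendsto_nhds]
    intro κ hκ
    have hK : IsCompact (closedBall (0 : ℂ) (2 ^ n + ‖c‖ + 1)) := isCompact_closedBall _ _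
    have huc := hK.uniformContinuousOn_of_continuous g.continuous.continuousOn
    rw [Metric.uniformContinuousOn_iff] at huc
    obtain ⟨δ, hδ, hg⟩ := huc (κ / 2) (by positivity)
    have ha2 := (Metric.tendsto_nhds.mp ha) (min δ 1) (by positivity)
    filter_upwards [h, ha2] with i hi hi2
    have hi3 : ∫ z, g z ∂(μ i : Measure ℂ) = ∫ z, g (f n (a i) z) ∂(μ i : Measure ℂ) := by
      conv_lhs => rw [← hi.1]
      rw [integral_map (meas_f n (a i)).aemeasurable g.continuous.aestronglyMeasurable]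
    have hint : ∀ b : ℂ, Integrable (fun z => g (f n b z)) (μ i : Measure ℂ) := fun b =>
      (g.compContinuous ⟨f n b, continuous_f n b⟩).integrable _
    rw [hi3, ← integral_sub (hint c) (hint (a i)), dist_zero_right]
    have h4 : ‖∫ z, (g (f n c z) - g (f n (a i) z)) ∂(μ i : Measure ℂ)‖ ≤
        κ / 2 * (μ i : Measure ℂ).real Set.univ := by
      apply norm_integral_le_of_norm_le_const
      filter_upwards [hi.2] with z hz
      have hzn : ‖z ^ n‖ ≤ 2 ^ n := by rw [norm_pow]; gcongr
      have hd : dist (a i) c < 1 := lt_of_lt_of_le hi2 (min_le_right _ _)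
      have hd2 : dist (a i) c < δ := lt_of_lt_of_le hi2 (min_le_left _ _)
      have hac : ‖a i‖ ≤ ‖c‖ + 1 := by
        have : ‖a i‖ ≤ ‖a i - c‖ + ‖c‖ := by
          calc ‖a i‖ = ‖(a i - c) + c‖ := by ring_nf
            _ ≤ _ := norm_add_le _ _
        rw [dist_eq_norm] at hd
        linarith
      have h5 := hg (f n c z) (by
        rw [mem_closedBall, dist_zero_right, f]
        calc ‖z ^ n + c‖ ≤ ‖z ^ n‖ + ‖c‖ := norm_add_le _ _
          _ ≤ _ := by linarith) (f n (a i) z) (by
        rw [mem_closedBall, dist_zero_right, f]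
        calc ‖z ^ n + a i‖ ≤ ‖z ^ n‖ + ‖a i‖ := norm_add_le _ _
          _ ≤ _ := by linarith) (by
        rw [dist_comm, dist_eq_norm, f, f, add_sub_add_left_eq_sub, ← dist_eq_norm]
        exact hd2)
      rw [Real.dist_eq] at h5
      exact h5.le
    rw [probReal_univ, mul_one] at h4
    linarith
  have h4 := h2.sub h1
  have h5 := tendsto_nhds_unique h3 h4
  linarith

/-- Limits of the empirical measures are invariant. -/
theorem inv_of_emp {L : Filter ℕ} [NeBot L] (hL : L ≤ atTop) {ν : ProbabilityMeasure ℂ}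
    (hlim : Tendsto (emp n c) L (𝓝 ν)) : Inv n c ν := by
  unfold Inv
  have hp : IsProbabilityMeasure (Measure.map (f n c) (ν : Measure ℂ)) :=
    Measure.isProbabilityMeasure_map (meas_f n c).aemeasurable
  apply ext_of_forall_integral_eq_of_IsFiniteMeasure
  intro g
  rw [integral_map (meas_f n c).aemeasurable g.continuous.aestronglyMeasurable]
  have h1 := (ProbabilityMeasure.tendsto_iff_forall_integral_tendsto.mp hlim) g
  have h2 := (ProbabilityMeasure.tendsto_iff_forall_integral_tendsto.mp hlim)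
    (g.compContinuous ⟨f n c, continuous_f n c⟩)
  simp only [BoundedContinuousFunction.compContinuous_apply, ContinuousMap.coe_mk] at h2
  have e : ∀ N (φ : ℂ → ℝ), ∫ z, φ z ∂(emp n c N : Measure ℂ) =
      (∑ k ∈ Finset.range (N + 1), φ ((f n c)^[k] c)) / (N + 1) := fun N φ => integral_empM φ
  have h3 : Tendsto (fun N => ∫ z, g (f n c z) ∂(emp n c N : Measure ℂ) -
      ∫ z, g z ∂(emp n c N : Measure ℂ)) L (𝓝 0) := by
    have h4 : ∀ N : ℕ, ‖∫ z, g (f n c z) ∂(emp n c N : Measure ℂ) -
        ∫ z, g z ∂(emp n c N : Measure ℂ)‖ ≤ 2 * ‖g‖ * (1 / ((N : ℝ) + 1)) := by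
      intro N
      rw [e, e]
      have h5 : ∑ k ∈ Finset.range (N + 1), g (f n c ((f n c)^[k] c)) =
          ∑ k ∈ Finset.range (N + 1), g ((f n c)^[k] c) + (g ((f n c)^[N + 1] c) - g c) := by
        have h6 := Finset.sum_range_succ' (fun k => g ((f n c)^[k] c)) (N + 1)
        have h7 := Finset.sum_range_succ (fun k => g ((f n c)^[k] c)) (N + 1)
        simp only [Function.iterate_succ_apply', Function.iterate_zero, id_eq] at h6 h7 ⊢
        linarith
      rw [h5, ← sub_div, add_sub_cancel_left, norm_div]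
      have hN : (0 : ℝ) < (N : ℝ) + 1 := by positivity
      rw [Real.norm_of_nonneg hN.le, div_eq_mul_one_div]
      gcongr
      calc ‖g ((f n c)^[N + 1] c) - g c‖ ≤ ‖g ((f n c)^[N + 1] c)‖ + ‖g c‖ := norm_sub_le _ _
        _ ≤ ‖g‖ + ‖g‖ := by gcongr <;> exact g.norm_coe_le_norm _
        _ = 2 * ‖g‖ := by ring
    apply squeeze_zero_norm h4
    have h5 := (tendsto_one_div_add_atTop_nhds_zero_nat (𝕜 := ℝ)).const_mul (2 * ‖g‖)
    rw [mul_zero] at h5
    exact h5.mono_left hL
  have h4 := h2.sub h1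
  have h5 := tendsto_nhds_unique h3 h4
  linarith

/-- Existence of limits of the empirical measures. -/
theorem exists_limit (hb : ∀ k, ‖(f n c)^[k] c‖ ≤ 2) : ∃ (L : Filter ℕ) (ν : ProbabilityMeasure ℂ),
    NeBot L ∧ L ≤ atTop ∧ Tendsto (emp n c) L (𝓝 ν) := by
  have htight : IsTightMeasureSet {((μ : ProbabilityMeasure ℂ) : Measure ℂ) | μ ∈ Set.range (emp n c)} := by
    rw [isTightMeasureSet_iff_exists_isCompact_measure_compl_le]
    intro κ _
    refine ⟨closedBall 0 2, isCompact_closedBall _ _, ?_⟩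
    rintro μ ⟨μ', ⟨N, rfl⟩, rfl⟩
    have hs : MeasurableSet (closedBall (0 : ℂ) 2)ᶜ := isClosed_closedBall.measurableSet.compl
    have h0 : (emp n c N : Measure ℂ) (closedBall (0 : ℂ) 2)ᶜ = 0 := by
      change empM n c N _ = 0
      rw [empM_apply hs, Finset.sum_eq_zero, mul_zero]
      intro k _
      apply Set.indicator_of_notMem
      rw [Set.mem_compl_iff, not_not, mem_closedBall, dist_zero_right]
      exact hb k
    rw [h0]
    exact zero_le
  have hcomp := isCompact_closure_of_isTightMeasureSet htight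
  obtain ⟨ν, -, hν⟩ := hcomp.exists_mapClusterPt (f := (atTop : Filter ℕ)) (u := emp n c)
    (by
      rw [Filter.le_principal_iff]
      exact Filter.mem_of_superset (Filter.image_mem_map Filter.univ_mem)
        (by rw [Set.image_univ]; exact subset_closure))
  refine ⟨atTop ⊓ comap (emp n c) (𝓝 ν), ν, ?_, inf_le_left, ?_⟩
  · have := mapClusterPt_iff_ultrafilter.mp hν
    obtain ⟨U, hU1, hU2⟩ := this
    refine NeBot.mono (f := (U : Filter ℕ)) inferInstance ?_
    exact le_inf hU1 (map_le_iff_le_comap.mp hU2)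
  · exact tendsto_comap.mono_left inf_le_right

/-- The limits are supported in the tails of the orbit. -/
theorem supp_of_emp {L : Filter ℕ} [NeBot L] (hL : L ≤ atTop) {ν : ProbabilityMeasure ℂ}
    (hlim : Tendsto (emp n c) L (𝓝 ν)) (m : ℕ) : (ν : Measure ℂ) (tail n c m) = 1 := by
  have h0 : (ν : Measure ℂ) (tail n c 0) = 1 := by
    have hcl : IsClosed (tail n c 0) := isClosed_closure
    have h1 : ∀ N, (emp n c N : Measure ℂ) (tail n c 0) = 1 := by
      intro N
      change empM n c N _ = 1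
      rw [empM_apply hcl.measurableSet]
      have h2 : ∀ k ∈ Finset.range (N + 1),
          (tail n c 0).indicator (1 : ℂ → ENNReal) ((f n c)^[k] c) = 1 := by
        intro k _
        rw [Set.indicator_of_mem]
        · rfl
        · exact subset_closure ⟨k, Nat.zero_le _, rfl⟩
      rw [Finset.sum_congr rfl h2, Finset.sum_const, Finset.card_range, nsmul_eq_mul, mul_one,
        ENNReal.inv_mul_cancel (by simp) (ENNReal.natCast_ne_top _)]
    have h2 := ProbabilityMeasure.limsup_measure_closed_le_of_tendsto hlim hcl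
    simp only [h1, limsup_const] at h2
    exact le_antisymm prob_le_one h2
  have hinv := inv_of_emp hL hlim
  have hcl : IsClosed (tail n c m) := isClosed_closure
  have h2 : tail n c 0 ⊆ (f n c)^[m] ⁻¹' tail n c m := by
    have hc : IsClosed ((f n c)^[m] ⁻¹' tail n c m) :=
      hcl.preimage ((continuous_f n c).iterate m)
    apply closure_minimal _ hc
    rintro z ⟨k, -, rfl⟩
    rw [Set.mem_preimage, ← Function.iterate_add_apply]
    exact subset_closure ⟨m + k, by omega, rfl⟩
  refine le_antisymm prob_le_one ?_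
  rw [← (hinv.mp.iterate m).measure_preimage hcl.measurableSet.nullMeasurableSet, ← h0]
  exact measure_mono h2

end Pool.Agent.U785.LE
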