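import Pool.Agent.U785.LE.Visit
import Pool.Agent.U785.LE.Weak

set_option autoImplicit false

/-! # The exponent along the critical orbit and the main lemmas -/

open Filter Topology MeasureTheory Metric

namespace Pool.Agent.U785.LE

open Pool.Agent.W746.LD

variable {n : ℕ} {c : ℂ}

lemma Far.notMem_hyp {s : ℝ} (hs : 0 < s) (h : c ∈ Far n s) : c ∉ hyp n := by
  intro h2
  have := h.2 c h2
  rw [sub_self, norm_zero] at this
  linarith

lemma Far.not_near {s s' T : ℝ} (h : c ∈ Far n s) (hs : s' ≤ s) : ¬ Near n T c s' := by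
  rintro ⟨c', h1, p, -, z, h3⟩
  have := h.2 c' ⟨p, z, h3⟩
  linarith

lemma Far.not_near' {s s' : ℝ} {N : ℕ} (h : c ∈ Far n s) (hs : s' ≤ s) :
    ¬ Pool.Agent.T2H09.LV.Near n N c s' := fun h1 =>
  Far.not_near (T := N) h hs (near_of h1 le_rfl le_rfl)

lemma slow_le {ε s : ℝ} (hε : 0 < ε) (hs : 0 < s) : ∃ ρ : ℝ, 0 < ρ ∧ ∀ r, 0 < r → r < ρ →
    slow ε r ≤ s := by
  obtain ⟨T, hT0, hT⟩ : ∃ T : ℝ, 0 ≤ T ∧ -Real.log s ≤ ε * T := by
    refine ⟨|Real.log s| / ε, by positivity, ?_⟩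
    rw [mul_div_cancel₀ _ hε.ne']
    exact neg_le_abs _
  refine ⟨Real.exp (-(T ^ 2)), Real.exp_pos _, fun r hr0 hr => ?_⟩
  have h1 : T ^ 2 ≤ Real.log (1 / r) := by
    rw [one_div, Real.log_inv]
    have := Real.log_lt_log hr0 hr
    rw [Real.log_exp] at this
    linarith
  have h2 : T ≤ √(Real.log (1 / r)) := Real.le_sqrt_of_sq_le h1
  rw [slow, ← Real.le_log_iff_exp_le hs]
  nlinarith

/-- The return property for the points of `Far n s`. -/
theorem far_slow (hn : 2 ≤ n) : ∃ ε : ℝ, 0 < ε ∧ ∀ s : ℝ, 0 < s → ∃ ρ : ℝ, 0 < ρ ∧ ρ ≤ 1 ∧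
    ∀ c ∈ Far n s, ∀ r, 0 < r → r < ρ → Slow n c (1 / slow ε r) r := by
  obtain ⟨ε, r₀, hε, hr₀, hr₁, h⟩ := returns hn
  refine ⟨ε, hε, fun s hs => ?_⟩
  obtain ⟨ρ, hρ, hρ2⟩ := slow_le hε hs
  refine ⟨min ρ r₀, by positivity, (min_le_right _ _).trans hr₁.le, fun c hc r hr0 hr => ?_⟩
  rcases h c hc.1 r hr0 (hr.le.trans (min_le_right _ _)) with h1 | h1
  · exact h1
  · exact absurd h1 (Far.not_near hc (hρ2 r hr0 (lt_of_lt_of_le hr (min_le_left _ _))))

lemma Far.norm_le (hn : 2 ≤ n) {s : ℝ} (h : c ∈ Far n s) : ‖c‖ ≤ 2 :=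
  Pool.Agent.T2H09.DH.norm_le_two hn h.1

lemma Far.orb_le (hn : 2 ≤ n) {s : ℝ} (h : c ∈ Far n s) (k : ℕ) : ‖(f n c)^[k] c‖ ≤ 2 :=
  mem_multibrot_orb hn h.1 k

lemma Far.orb_ne (hn : 2 ≤ n) {s : ℝ} (hs : 0 < s) (h : c ∈ Far n s) (k : ℕ) :
    (f n c)^[k] c ≠ 0 := by
  intro h0
  exact Far.not_near' h hs.le
    (Pool.Agent.T2H09.LV.near_of_zero hn (Nat.lt_succ_self k) h0 le_rfl)

lemma deriv_iter (N : ℕ) : deriv (f n c)^[N] c = P n c c N := (hasDerivAt_orb c N).deriv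

lemma log_P (hn : 2 ≤ n) (h : ∀ k, (f n c)^[k] c ≠ 0) (N : ℕ) :
    Real.log ‖P n c c N‖ =
      ∑ k ∈ Finset.range N, (Real.log n + (n - 1 : ℝ) * Real.log ‖(f n c)^[k] c‖) := by
  induction N with
  | zero => simp
  | succ N ih =>
    have hn0 : (0 : ℝ) < n := by exact_mod_cast (by omega : 0 < n)
    have h1 : 0 < ‖P n c c N‖ := norm_pos_iff.mpr (P_ne_zero hn fun i _ => h i)
    have h2 : 0 < ‖(f n c)^[N] c‖ := norm_pos_iff.mpr (h N)
    have e : orb n c c N = (f n c)^[N] c := rfl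
    rw [norm_P_succ, e, Real.log_mul h1.ne' (by positivity), Real.log_mul hn0.ne' (by positivity),
      Real.log_pow, ih, Finset.sum_range_succ, Nat.cast_sub (by omega), Nat.cast_one]

/-- The exponent along the orbit of the critical value is zero, uniformly. -/
theorem unif_zero (hn : 2 ≤ n) {s η : ℝ} (hs : 0 < s) (hη : 0 < η) : ∃ N₀ : ℕ, ∀ c ∈ Far n s,
    ∀ N ≥ N₀, |Real.log ‖deriv (f n c)^[N] c‖| ≤ η * N := by
  obtain ⟨C, ε1, hC, hε1, hgrow⟩ := Pool.Agent.T2H09.LW.growV2 hn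
  obtain ⟨ε, hε, hslow⟩ := far_slow hn
  obtain ⟨ρ, hρ, hρ1, hslow⟩ := hslow s hs
  have hn1 : (1 : ℝ) ≤ n - 1 := by
    have : (2 : ℝ) ≤ n := by exact_mod_cast hn
    linarith
  obtain ⟨δ, hδ, -, happ⟩ := unif_appr hε hρ (κ := η / (2 * (n - 1))) (by
    apply div_pos hη; linarith)
  obtain ⟨N₁, hN₁⟩ := pliss_cycle hn hδ (η := η / 4) (by positivity)
  -- large `N`
  have hl : Tendsto (fun N : ℕ => Real.log (N : ℝ)) atTop atTop :=
    Real.tendsto_log_atTop.comp tendsto_natCast_atTop_atTop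
  have hl1 : ∀ᶠ N : ℕ in atTop, Real.exp (-(ε1 * C * Real.log N)) ≤ s := by
    have h1 : Tendsto (fun N : ℕ => Real.exp (-(ε1 * C * Real.log N))) atTop (𝓝 0) := by
      apply Real.tendsto_exp_neg_atTop_nhds_zero.comp
      exact hl.const_mul_atTop (by positivity)
    exact (h1.eventually_lt_const hs).mono fun _ h => h.le
  have hl2 : ∀ᶠ N : ℕ in atTop, C * Real.log N ^ 2 ≤ η * N := by
    have h1 : Tendsto (fun x : ℝ => Real.log x ^ 2 / x) atTop (𝓝 0) := by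
      have := Real.tendsto_pow_log_div_mul_add_atTop 1 0 2 one_ne_zero
      simpa using this
    have h2 := (h1.comp tendsto_natCast_atTop_atTop).eventually_lt_const
      (show (0 : ℝ) < η / C by positivity)
    filter_upwards [h2, eventually_ge_atTop 1] with N h3 h4
    have hN : (0 : ℝ) < N := by exact_mod_cast h4
    rw [Function.comp_apply, div_lt_div_iff₀ hN hC] at h3
    linarith
  obtain ⟨N₂, hN₂⟩ := eventually_atTop.mp (hl1.and hl2)
  refine ⟨max N₁ (max N₂ 2), fun c hc N hN => ?_⟩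
  have hNa : N₁ ≤ N := (le_max_left _ _).trans hN
  have hNb : N₂ ≤ N := (le_max_left _ _).trans ((le_max_right _ _).trans hN)
  have hNc : 2 ≤ N := (le_max_right _ _).trans ((le_max_right _ _).trans hN)
  obtain ⟨h1, h2⟩ := hN₂ N hNb
  have hne := Far.orb_ne hn hs hc
  have hP0 : 0 < ‖P n c c N‖ := norm_pos_iff.mpr (P_ne_zero hn fun i _ => hne i)
  rw [deriv_iter, abs_le]
  constructor
  · -- lower bound
    by_contra hcon
    push Not at hcon
    apply Far.notMem_hyp hs hc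
    refine hN₁ c c (Far.orb_le hn hc) N hNa ?_
    obtain ⟨M, rfl⟩ : ∃ M, N = M + 1 := ⟨N - 1, by omega⟩
    have hthin := thin_emp hn (Far.orb_le hn hc) hρ1 (hslow c hc) M
    have h3 := (happ _ hthin).2
    rw [integral_empM, integral_empM] at h3
    have hM : (0 : ℝ) < (M : ℝ) + 1 := by positivity
    have h4 : ∑ k ∈ Finset.range (M + 1), Real.log (‖(f n c)^[k] c‖ + δ) ≤
        ∑ k ∈ Finset.range (M + 1), Real.log ‖(f n c)^[k] c‖ +
          η / (2 * (n - 1)) * (M + 1) := by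
      rw [div_add' _ _ _ hM.ne', div_le_div_iff_of_pos_right hM] at h3
      exact h3
    have h5 : ∑ k ∈ Finset.range (M + 1), Real.log (lam n δ ((f n c)^[k] c)) =
        (M + 1) * Real.log n +
          (n - 1) * ∑ k ∈ Finset.range (M + 1), Real.log (‖(f n c)^[k] c‖ + δ) := by
      rw [Finset.mul_sum, Finset.sum_congr rfl fun k _ => log_lam hn hδ _, Finset.sum_add_distrib]
      simp
    have h6 : Real.log ‖P n c c (M + 1)‖ = (M + 1) * Real.log n +
          (n - 1) * ∑ k ∈ Finset.range (M + 1), Real.log ‖(f n c)^[k] c‖ := by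
      rw [log_P hn hne, Finset.mul_sum, Finset.sum_add_distrib]
      simp
    rw [h6] at hcon
    rw [h5]
    have h7 : (n - 1 : ℝ) * ∑ k ∈ Finset.range (M + 1), Real.log (‖(f n c)^[k] c‖ + δ) ≤
        (n - 1 : ℝ) * (∑ k ∈ Finset.range (M + 1), Real.log ‖(f n c)^[k] c‖ +
          η / (2 * (n - 1)) * (M + 1)) := by gcongr
    have h8 : (n - 1 : ℝ) * (η / (2 * (n - 1)) * (M + 1)) = η / 2 * (M + 1) := by
      field_simp
    rw [mul_add, h8] at h7
    push_cast at hcon ⊢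
    linarith
  · -- upper bound
    by_contra hcon
    push Not at hcon
    have h3 : Real.exp (C * Real.log N ^ 2) ≤ ‖P n c c N‖ := by
      rw [← Real.le_log_iff_exp_le hP0]
      linarith
    have h4 := hgrow c hc.1 N hNc h3
    have h5 : ‖P n c c N‖⁻¹ ≤ Real.exp (-(C * Real.log N ^ 2)) := by
      rw [Real.exp_neg]
      exact inv_anti₀ (Real.exp_pos _) h3
    exact Far.not_near' hc ((Pool.Agent.T2H09.LW.rpow_le_of_le2 hε1 hNc
      (inv_nonneg.mpr hP0.le) h5).trans h1) h4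

/-- Parameters outside the closure of the hyperbolic ones are far from them, uniformly near each
of them. -/
lemma exists_far (hcl : c ∉ closure (hyp n)) : ∃ s : ℝ, 0 < s ∧ ∀ a : ℂ, ‖a - c‖ < s →
    a ∈ N62a1eb23.multibrotSet n → a ∈ Far n s := by
  rw [Metric.mem_closure_iff] at hcl
  push Not at hcl
  obtain ⟨d, hd, h⟩ := hcl
  refine ⟨d / 3, by positivity, fun a ha haM => ⟨haM, fun c' hc' => ?_⟩⟩
  have h1 := h c' hc'
  rw [dist_eq_norm] at h1
  have h2 : ‖c - c'‖ ≤ ‖c' - a‖ + ‖a - c‖ := by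
    calc ‖c - c'‖ = ‖(c' - a) + (a - c)‖ := by rw [← norm_neg]; ring_nf
      _ ≤ _ := norm_add_le _ _
  linarith

/-- Joint continuity. -/
theorem joint (hn : 2 ≤ n) (hc : c ∈ N62a1eb23.multibrotSet n) (hcl : c ∉ closure (hyp n))
    {ι : Type*} {L : Filter ι} [NeBot L] {a : ι → ℂ} {μ : ι → ProbabilityMeasure ℂ}
    {ν : ProbabilityMeasure ℂ} (h : ∀ i, a i ∈ N62a1eb23.multibrotSet n ∧ Inv n (a i) (μ i))
    (ha : Tendsto a L (𝓝 c)) (hlim : Tendsto μ L (𝓝 ν)) :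
    Inv n c ν ∧ Tendsto (fun i => expo n (a i) (μ i)) L (𝓝 (expo n c ν)) := by
  obtain ⟨ε, hε, hslow⟩ := far_slow hn
  obtain ⟨s, hs, hfar⟩ := exists_far hcl
  obtain ⟨ρ, hρ, hρ1, hslow⟩ := hslow s hs
  have hcF : c ∈ Far n s := hfar c (by simpa using hs) hc
  have hinv : Inv n c ν := inv_of_tendsto (L := L) (a := a) (μ := μ)
    (Eventually.of_forall fun i => ⟨(h i).2,
      (h i).2.bdd hn (Pool.Agent.T2H09.DH.norm_le_two hn (h i).1)⟩) ha hlim
  refine ⟨hinv, ?_⟩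
  have hν := hinv.thin hn (Far.norm_le hn hcF) hρ1 (hslow c hcF)
  have hev : ∀ᶠ i in L, Thin ε ρ (μ i : Measure ℂ) := by
    filter_upwards [(Metric.tendsto_nhds.mp ha) s hs] with i hi
    rw [dist_eq_norm] at hi
    have hF := hfar (a i) hi (h i).1
    exact (h i).2.thin hn (Far.norm_le hn hF) hρ1 (hslow _ hF)
  have h1 := (tendsto_log hε hρ hev hν hlim).const_mul (n - 1 : ℝ)
  have h2 := h1.const_add (Real.log n)
  rw [(hν.expo_eq (c := c) hn hε hρ).2]
  refine h2.congr' ?_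
  filter_upwards [hev] with i hi
  rw [(hi.expo_eq (c := a i) hn hε hρ).2]

/-- Limits of the empirical measures have exponent zero. -/
theorem emp_zero (hn : 2 ≤ n) (hc : c ∈ N62a1eb23.multibrotSet n) (hcl : c ∉ closure (hyp n))
    {L : Filter ℕ} [NeBot L] {ν : ProbabilityMeasure ℂ} (hL : L ≤ atTop)
    (hlim : Tendsto (emp n c) L (𝓝 ν)) : Inv n c ν ∧ expo n c ν = 0 ∧
      ∀ m, (ν : Measure ℂ) (tail n c m) = 1 := by
  obtain ⟨ε, hε, hslow⟩ := far_slow hn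
  obtain ⟨s, hs, hfar⟩ := exists_far hcl
  obtain ⟨ρ, hρ, hρ1, hslow⟩ := hslow s hs
  have hcF : c ∈ Far n s := hfar c (by simpa using hs) hc
  have hinv : Inv n c ν := inv_of_emp hL hlim
  refine ⟨hinv, ?_, supp_of_emp hL hlim⟩
  have hν := hinv.thin hn (Far.norm_le hn hcF) hρ1 (hslow c hcF)
  have hev : ∀ N, Thin ε ρ (emp n c N : Measure ℂ) := fun N =>
    thin_emp hn (Far.orb_le hn hcF) hρ1 (hslow c hcF) N
  have h1 := (tendsto_log hε hρ (Eventually.of_forall hev) hν hlim).const_mul (n - 1 : ℝ)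
  have h2 := h1.const_add (Real.log n)
  rw [(hν.expo_eq (c := c) hn hε hρ).2]
  refine tendsto_nhds_unique h2 (Tendsto.mono_left ?_ hL)
  rw [Metric.tendsto_atTop]
  intro κ hκ
  obtain ⟨N₀, hN₀⟩ := unif_zero hn hs (η := κ / 2) (by positivity)
  refine ⟨N₀, fun N hN => ?_⟩
  have h3 := hN₀ c hcF (N + 1) (by omega)
  have hN : (0 : ℝ) < (N : ℝ) + 1 := by positivity
  have h4 : Real.log n + (n - 1 : ℝ) * ∫ z, Real.log ‖z‖ ∂(emp n c N : Measure ℂ) =
      Real.log ‖deriv (f n c)^[N + 1] c‖ / (N + 1) := by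
    rw [deriv_iter, log_P hn (Far.orb_ne hn hs hcF)]
    have e : ∫ z, Real.log ‖z‖ ∂(emp n c N : Measure ℂ) =
        (∑ k ∈ Finset.range (N + 1), Real.log ‖(f n c)^[k] c‖) / (N + 1) := integral_empM _
    rw [e, Finset.sum_add_distrib, ← Finset.mul_sum]
    simp only [Finset.sum_const, Finset.card_range, nsmul_eq_mul]
    push_cast
    field_simp
  rw [h4, dist_zero_right, norm_div, Real.norm_of_nonneg hN.le, Real.norm_eq_abs,
    div_lt_iff₀ hN]
  push_cast at h3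
  nlinarith

end Pool.Agent.U785.LE
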