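import Mathlib
import Pool.Prelude.Def_F_c31e40fa

set_option autoImplicit false

/-! # Invariant measures and Lyapunov exponents of `z ^ n + c`: definitions -/

open Filter Topology MeasureTheory Metric

namespace Pool.Agent.U785.LE

/-- The polynomial `z ^ n + c`. -/
def f (n : ℕ) (c : ℂ) : ℂ → ℂ := fun z => z ^ n + c

/-- The parameters `c` for which `z ^ n + c` has an attracting cycle. -/
def hyp (n : ℕ) : Set ℂ := {c | ∃ m z, N62a1eb23.IsAttractingCycle (f n c) m z}

/-- There is a parameter `c'` with `|c' - c| ≤ s` such that `z ^ n + c'` has an attracting cycle of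
period at most `T`. -/
def Near (n : ℕ) (T : ℝ) (c : ℂ) (s : ℝ) : Prop :=
  ∃ c' : ℂ, ‖c' - c‖ ≤ s ∧ ∃ p : ℕ, (p : ℝ) ≤ T ∧ ∃ z, N62a1eb23.IsAttractingCycle (f n c') p z

/-- The points of the Multibrot set whose distance to every parameter with an attracting cycle is
larger than `s`. -/
def Far (n : ℕ) (s : ℝ) : Set ℂ := {c | c ∈ N62a1eb23.multibrotSet n ∧ ∀ c' ∈ hyp n, s < ‖c' - c‖}

/-- The function `exp (-ε √(log (1 / r)))` -/
noncomputable def slow (ε r : ℝ) : ℝ := Real.exp (-(ε * √(Real.log (1 / r))))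

/-- The Borel probability measure `μ` on `ℂ` is invariant under `z ^ n + c`. -/
def Inv (n : ℕ) (c : ℂ) (μ : ProbabilityMeasure ℂ) : Prop :=
  Measure.map (f n c) (μ : Measure ℂ) = (μ : Measure ℂ)

/-- The Lyapunov exponent `∫ log |f'| dμ` of `z ^ n + c` with respect to `μ`. -/
noncomputable def expo (n : ℕ) (c : ℂ) (μ : ProbabilityMeasure ℂ) : ℝ :=
  ∫ z, Real.log ‖deriv (f n c) z‖ ∂(μ : Measure ℂ)

/-- The average of the unit masses at `c, f(c), …, f ^ N (c)`, as a measure. -/
noncomputable def empM (n : ℕ) (c : ℂ) (N : ℕ) : Measure ℂ :=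
  ((N + 1 : ℕ) : ENNReal)⁻¹ • ∑ k ∈ Finset.range (N + 1), Measure.dirac ((f n c)^[k] c)

instance (n : ℕ) (c : ℂ) (N : ℕ) : IsProbabilityMeasure (empM n c N) := by
  constructor
  rw [empM, Measure.smul_apply, Measure.finsetSum_apply]
  simp only [measure_univ, Finset.sum_const, Finset.card_range, smul_eq_mul, nsmul_eq_mul, mul_one]
  rw [ENNReal.inv_mul_cancel]
  · simp
  · exact ENNReal.natCast_ne_top _

/-- The empirical measures of the orbit of the critical value: the average of the unit masses at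
`c, f(c), …, f ^ N (c)`. -/
noncomputable def emp (n : ℕ) (c : ℂ) (N : ℕ) : ProbabilityMeasure ℂ := ⟨empM n c N, inferInstance⟩

/-- The closure of the orbit of `f ^ m (c)`. -/
def tail (n : ℕ) (c : ℂ) (m : ℕ) : Set ℂ := closure {z | ∃ k ≥ m, z = (f n c)^[k] c}

end Pool.Agent.U785.LE
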