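import Pool.Agent.U785.LE.Defs

set_option autoImplicit false

/-! # Measures with thin tails at `0` -/

open Filter Topology MeasureTheory Metric

namespace Pool.Agent.U785.LE

/-- The class of measures. -/
structure Thin (ε ρ : ℝ) (μ : Measure ℂ) : Prop where
  prob : IsProbabilityMeasure μ
  bdd : ∀ᵐ z ∂μ, ‖z‖ ≤ 2
  thin : ∀ r, 0 < r → r < ρ → μ (closedBall 0 r) ≤ ENNReal.ofReal (slow ε r)

lemma slow_exp {ε : ℝ} {t : ℝ} : slow ε (Real.exp (-t)) = Real.exp (-(ε * √t)) := by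
  rw [slow, one_div, ← Real.exp_neg, neg_neg, Real.log_exp]

lemma slow_pos (ε r : ℝ) : 0 < slow ε r := Real.exp_pos _

lemma summable_slow {ε : ℝ} (hε : 0 < ε) : Summable (fun k : ℕ => Real.exp (-(ε * √(k : ℝ)))) := by
  have h2 : Summable (fun k : ℕ => 24 / ε ^ 4 * (1 / (k : ℝ) ^ 2)) :=
    (Real.summable_one_div_nat_pow.mpr (by norm_num)).mul_left _
  refine Summable.of_norm_bounded_eventually_nat (g := fun k : ℕ => 24 / ε ^ 4 * (1 / (k : ℝ) ^ 2)) h2 ?_
  filter_upwards [eventually_ge_atTop 1] with k hk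
  have hk1 : (1 : ℝ) ≤ k := by exact_mod_cast hk
  rw [Real.norm_eq_abs, abs_of_pos (Real.exp_pos _)]
  have h3 : 0 ≤ ε * √(k : ℝ) := by positivity
  have h4 := Real.pow_div_factorial_le_exp (ε * √(k : ℝ)) h3 4
  have h5 : (ε * √(k : ℝ)) ^ 4 = ε ^ 4 * (k : ℝ) ^ 2 := by
    rw [mul_pow]
    congr 1
    have : √(k : ℝ) ^ 4 = (√(k : ℝ) ^ 2) ^ 2 := by ring
    rw [this, Real.sq_sqrt (by positivity)]
  rw [h5] at h4
  have h6 : ((Nat.factorial 4 : ℕ) : ℝ) = 24 := by norm_num [Nat.factorial]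
  rw [h6] at h4
  rw [Real.exp_neg]
  have h7 : 24 / ε ^ 4 * (1 / (k : ℝ) ^ 2) = (ε ^ 4 * (k : ℝ) ^ 2 / 24)⁻¹ := by
    field_simp
  rw [h7]
  exact inv_anti₀ (by positivity) h4

/-- The tail sums. -/
noncomputable def ts (ε : ℝ) (K : ℕ) : ℝ := ∑' k : ℕ, Real.exp (-(ε * √((k + K : ℕ) : ℝ)))

lemma ts_tendsto (ε : ℝ) : Tendsto (ts ε) atTop (𝓝 0) :=
  tendsto_sum_nat_add (fun k : ℕ => Real.exp (-(ε * √(k : ℝ))))

lemma ts_nonneg (ε : ℝ) (K : ℕ) : 0 ≤ ts ε K := tsum_nonneg fun _ => (Real.exp_pos _).le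

/-- The layer function. -/
noncomputable def lay (K : ℕ) (z : ℂ) : ENNReal :=
  ∑' k : ℕ, (closedBall (0 : ℂ) (Real.exp (-((k + K : ℕ) : ℝ)))).indicator (fun _ => 1) z

lemma lay_meas (K : ℕ) : Measurable (lay K) := by
  unfold lay
  exact Measurable.tsum fun k => measurable_const.indicator isClosed_closedBall.measurableSet

lemma lintegral_lay {ε ρ : ℝ} (hε : 0 < ε) {μ : Measure ℂ} (h : Thin ε ρ μ) {K : ℕ}
    (hK : Real.exp (-(K : ℝ)) < ρ) : ∫⁻ z, lay K z ∂μ ≤ ENNReal.ofReal (ts ε K) := by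
  unfold lay
  rw [lintegral_tsum (fun k =>
    (measurable_const.indicator isClosed_closedBall.measurableSet).aemeasurable)]
  have hs : Summable (fun k : ℕ => Real.exp (-(ε * √((k + K : ℕ) : ℝ)))) :=
    (summable_nat_add_iff (f := fun k : ℕ => Real.exp (-(ε * √(k : ℝ)))) K).mpr (summable_slow hε)
  rw [ts, ENNReal.ofReal_tsum_of_nonneg (fun _ => (Real.exp_pos _).le) hs]
  refine ENNReal.tsum_le_tsum fun k => ?_
  have e : ∫⁻ z, (closedBall (0 : ℂ) (Real.exp (-((k + K : ℕ) : ℝ)))).indicator (fun _ => 1) z ∂μ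
      = μ (closedBall (0 : ℂ) (Real.exp (-((k + K : ℕ) : ℝ)))) := by
    rw [lintegral_indicator isClosed_closedBall.measurableSet]
    simp
  rw [e]
  refine (h.thin _ (Real.exp_pos _) (lt_of_le_of_lt ?_ hK)).trans ?_
  · apply Real.exp_le_exp.mpr
    push_cast
    have : (0 : ℝ) ≤ k := Nat.cast_nonneg k
    linarith
  · rw [slow_exp]

/-- The layers dominate the logarithm. -/
lemma le_lay (K : ℕ) {z : ℂ} (hz : z ≠ 0) :
    ENNReal.ofReal (-Real.log ‖z‖ - K) ≤ lay K z := by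
  have hz0 : 0 < ‖z‖ := norm_pos_iff.mpr hz
  set t := -Real.log ‖z‖ with ht
  have hzt : ‖z‖ = Real.exp (-t) := by rw [ht, neg_neg, Real.exp_log hz0]
  by_cases h : t - K ≤ 0
  · rw [ENNReal.ofReal_of_nonpos h]; exact zero_le
  push Not at h
  set m := ⌊t - K⌋₊ with hm
  have h1 : (m : ℝ) ≤ t - K := Nat.floor_le h.le
  have h2 : t - K < m + 1 := Nat.lt_floor_add_one _
  have h3 : ((m + 1 : ℕ) : ENNReal) ≤ lay K z := by
    have h4 : ∑ k ∈ Finset.range (m + 1),
        (closedBall (0 : ℂ) (Real.exp (-((k + K : ℕ) : ℝ)))).indicator (fun _ => (1 : ENNReal)) z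
        = ((m + 1 : ℕ) : ENNReal) := by
      have h5 : ∀ k ∈ Finset.range (m + 1),
          (closedBall (0 : ℂ) (Real.exp (-((k + K : ℕ) : ℝ)))).indicator (fun _ => (1 : ENNReal)) z
            = 1 := by
        intro k hk
        rw [Finset.mem_range] at hk
        have hk' : (k : ℝ) ≤ m := by exact_mod_cast (by omega : k ≤ m)
        apply Set.indicator_of_mem
        rw [mem_closedBall, dist_zero_right, hzt, Real.exp_le_exp]
        push_cast
        linarith
      rw [Finset.sum_congr rfl h5]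
      simp
    rw [← h4]
    exact ENNReal.sum_le_tsum _
  refine le_trans ?_ h3
  rw [← ENNReal.ofReal_natCast]
  apply ENNReal.ofReal_le_ofReal
  push_cast
  linarith

/-- The layers dominate the approximation. -/
lemma appr_le (K : ℕ) {δ : ℝ} (hδ : 0 < δ) (hδ2 : δ ≤ Real.exp (-(K : ℝ))) {z : ℂ} (hz : z ≠ 0) :
    ENNReal.ofReal (Real.log (‖z‖ + δ) - Real.log ‖z‖) ≤
      ENNReal.ofReal (δ * Real.exp K) + 2 * lay K z := by
  have hz0 : 0 < ‖z‖ := norm_pos_iff.mpr hz
  by_cases h : Real.exp (-(K : ℝ)) < ‖z‖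
  · refine le_trans ?_ le_self_add
    apply ENNReal.ofReal_le_ofReal
    have h1 : Real.log (‖z‖ + δ) - Real.log ‖z‖ = Real.log (1 + δ / ‖z‖) := by
      rw [← Real.log_div (by positivity) hz0.ne']
      congr 1
      field_simp
    rw [h1]
    have h2 := Real.log_le_sub_one_of_pos (x := 1 + δ / ‖z‖) (by positivity)
    have h3 : δ / ‖z‖ ≤ δ * Real.exp K := by
      rw [div_eq_mul_inv]
      gcongr
      rw [inv_le_comm₀ hz0 (Real.exp_pos _), ← Real.exp_neg]
      exact h.le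
    linarith
  · push Not at h
    refine le_trans ?_ le_add_self
    have h1 := le_lay K hz
    have h2 : (1 : ENNReal) ≤ lay K z := by
      have h4 : (closedBall (0 : ℂ) (Real.exp (-((0 + K : ℕ) : ℝ)))).indicator
          (fun _ => (1 : ENNReal)) z = 1 := by
        apply Set.indicator_of_mem
        rw [mem_closedBall, dist_zero_right]
        simpa using h
      rw [← h4]
      exact ENNReal.le_tsum (f := fun k : ℕ => (closedBall (0 : ℂ)
        (Real.exp (-((k + K : ℕ) : ℝ)))).indicator (fun _ => (1 : ENNReal)) z) 0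
    have h3 : Real.log (‖z‖ + δ) - Real.log ‖z‖ ≤ 1 + (-Real.log ‖z‖ - K) := by
      have h5 : ‖z‖ + δ ≤ 2 * Real.exp (-(K : ℝ)) := by linarith
      have h6 := Real.log_le_log (by positivity) h5
      rw [Real.log_mul (by norm_num) (Real.exp_pos _).ne', Real.log_exp] at h6
      have h7 : Real.log 2 ≤ 1 := by linarith [Real.log_two_lt_d9]
      linarith
    calc ENNReal.ofReal (Real.log (‖z‖ + δ) - Real.log ‖z‖)
        ≤ ENNReal.ofReal (1 + (-Real.log ‖z‖ - K)) := ENNReal.ofReal_le_ofReal h3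
      _ ≤ ENNReal.ofReal 1 + ENNReal.ofReal (-Real.log ‖z‖ - K) := ENNReal.ofReal_add_le
      _ ≤ lay K z + lay K z := by
        gcongr
        rwa [ENNReal.ofReal_one]
      _ = 2 * lay K z := by ring

lemma Thin.zero {ε ρ : ℝ} (hε : 0 < ε) (hρ : 0 < ρ) {μ : Measure ℂ} (h : Thin ε ρ μ) :
    μ {0} = 0 := by
  have hlim : Tendsto (fun k : ℕ => ENNReal.ofReal (Real.exp (-(ε * √(k : ℝ))))) atTop (𝓝 0) := by
    have := (summable_slow hε).tendsto_atTop_zero
    have h2 := (ENNReal.continuous_ofReal.tendsto 0).comp this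
    rwa [ENNReal.ofReal_zero] at h2
  have hρ2 : ∀ᶠ k : ℕ in atTop, Real.exp (-(k : ℝ)) < ρ := by
    have : Tendsto (fun k : ℕ => Real.exp (-(k : ℝ))) atTop (𝓝 0) :=
      Real.tendsto_exp_neg_atTop_nhds_zero.comp tendsto_natCast_atTop_atTop
    exact this.eventually_lt_const hρ
  refine le_antisymm (ge_of_tendsto hlim ?_) zero_le
  filter_upwards [hρ2] with k hk
  rw [← slow_exp]
  refine (measure_mono ?_).trans (h.thin _ (Real.exp_pos _) hk)
  rw [Set.singleton_subset_iff]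
  exact mem_closedBall_self (Real.exp_pos _).le

lemma Thin.ne_zero {ε ρ : ℝ} (hε : 0 < ε) (hρ : 0 < ρ) {μ : Measure ℂ} (h : Thin ε ρ μ) :
    ∀ᵐ z ∂μ, z ≠ 0 := by
  rw [ae_iff]
  simpa using h.zero hε hρ

lemma exists_K {ρ : ℝ} (hρ : 0 < ρ) : ∃ K₀ : ℕ, ∀ K ≥ K₀, Real.exp (-(K : ℝ)) < ρ := by
  have : Tendsto (fun k : ℕ => Real.exp (-(k : ℝ))) atTop (𝓝 0) :=
    Real.tendsto_exp_neg_atTop_nhds_zero.comp tendsto_natCast_atTop_atTop
  exact eventually_atTop.mp (this.eventually_lt_const hρ)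

/-- `log ‖z‖` is integrable. -/
theorem Thin.integrable_log {ε ρ : ℝ} (hε : 0 < ε) (hρ : 0 < ρ) {μ : Measure ℂ}
    (h : Thin ε ρ μ) : Integrable (fun z : ℂ => Real.log ‖z‖) μ := by
  have := h.prob
  obtain ⟨K, hK⟩ := exists_K hρ
  have hK := hK K le_rfl
  refine ⟨(Real.measurable_log.comp measurable_norm).aestronglyMeasurable, ?_⟩
  rw [hasFiniteIntegral_iff_norm]
  have h1 : ∫⁻ z, ENNReal.ofReal ‖Real.log ‖z‖‖ ∂μ ≤
      ∫⁻ z, (ENNReal.ofReal (1 + K) + lay K z) ∂μ := by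
    apply lintegral_mono_ae
    filter_upwards [h.bdd, h.ne_zero hε hρ] with z hz hz0
    have hz1 : 0 < ‖z‖ := norm_pos_iff.mpr hz0
    have h2 : Real.log ‖z‖ ≤ 1 := by
      have := Real.log_le_log hz1 hz
      linarith [Real.log_two_lt_d9]
    by_cases h3 : 0 ≤ Real.log ‖z‖
    · refine le_trans ?_ le_self_add
      apply ENNReal.ofReal_le_ofReal
      rw [Real.norm_eq_abs, abs_of_nonneg h3]
      have : (0 : ℝ) ≤ K := Nat.cast_nonneg K
      linarith
    · push Not at h3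
      rw [Real.norm_eq_abs, abs_of_neg h3]
      calc ENNReal.ofReal (-Real.log ‖z‖) = ENNReal.ofReal (K + (-Real.log ‖z‖ - K)) := by ring_nf
        _ ≤ ENNReal.ofReal K + ENNReal.ofReal (-Real.log ‖z‖ - K) := ENNReal.ofReal_add_le
        _ ≤ ENNReal.ofReal (1 + K) + lay K z := by
          gcongr
          · linarith
          · exact le_lay K hz0
  refine lt_of_le_of_lt h1 ?_
  rw [lintegral_add_left measurable_const, lintegral_const, measure_univ, mul_one]
  exact ENNReal.add_lt_top.mpr ⟨ENNReal.ofReal_lt_top,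
    lt_of_le_of_lt (lintegral_lay hε h hK) ENNReal.ofReal_lt_top⟩

lemma Thin.integrable_appr {ε ρ : ℝ} {μ : Measure ℂ} (h : Thin ε ρ μ) {δ : ℝ} (hδ : 0 < δ) :
    Integrable (fun z : ℂ => Real.log (‖z‖ + δ)) μ := by
  have := h.prob
  refine Integrable.of_bound (C := |Real.log δ| + |Real.log (2 + δ)|)
    ((Real.measurable_log.comp (measurable_norm.add_const δ)).aestronglyMeasurable) ?_
  filter_upwards [h.bdd] with z hz
  have h1 : Real.log δ ≤ Real.log (‖z‖ + δ) :=
    Real.log_le_log hδ (by linarith [norm_nonneg z])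
  have h2 : Real.log (‖z‖ + δ) ≤ Real.log (2 + δ) :=
    Real.log_le_log (by linarith [norm_nonneg z]) (by linarith)
  rw [Real.norm_eq_abs, abs_le]
  constructor
  · linarith [neg_abs_le (Real.log δ), abs_nonneg (Real.log (2 + δ))]
  · linarith [le_abs_self (Real.log (2 + δ)), abs_nonneg (Real.log δ)]

/-- Uniform approximation. -/
theorem unif_appr {ε ρ : ℝ} (hε : 0 < ε) (hρ : 0 < ρ) {κ : ℝ} (hκ : 0 < κ) :
    ∃ δ : ℝ, 0 < δ ∧ δ ≤ 1 ∧ ∀ μ : Measure ℂ, Thin ε ρ μ →
      ∫ z, Real.log ‖z‖ ∂μ ≤ ∫ z, Real.log (‖z‖ + δ) ∂μ ∧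
      ∫ z, Real.log (‖z‖ + δ) ∂μ ≤ ∫ z, Real.log ‖z‖ ∂μ + κ := by
  obtain ⟨K₀, hK₀⟩ := exists_K hρ
  have h1 : ∀ᶠ K in atTop, ts ε K < κ / 4 := (ts_tendsto ε).eventually_lt_const (by positivity)
  obtain ⟨K, hK1, hK2⟩ := (h1.and (eventually_ge_atTop K₀)).exists
  have hK := hK₀ K hK2
  refine ⟨min (Real.exp (-(K : ℝ))) (κ / 2 * Real.exp (-(K : ℝ))), by positivity, ?_, ?_⟩
  · refine (min_le_left _ _).trans ?_
    rw [Real.exp_le_one_iff]
    have : (0 : ℝ) ≤ K := Nat.cast_nonneg K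
    linarith
  intro μ h
  have := h.prob
  set δ := min (Real.exp (-(K : ℝ))) (κ / 2 * Real.exp (-(K : ℝ))) with hδd
  have hδ : 0 < δ := by positivity
  have hi1 := h.integrable_log hε hρ
  have hi2 := h.integrable_appr hδ
  constructor
  · apply integral_mono_ae hi1 hi2
    filter_upwards [h.ne_zero hε hρ] with z hz0
    have hz1 : 0 < ‖z‖ := norm_pos_iff.mpr hz0
    exact Real.log_le_log hz1 (by linarith)
  · have h2 : ∫ z, (Real.log (‖z‖ + δ) - Real.log ‖z‖) ∂μ ≤ κ := by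
      rw [integral_eq_lintegral_of_nonneg_ae]
      · refine ENNReal.toReal_le_of_le_ofReal hκ.le ?_
        calc ∫⁻ z, ENNReal.ofReal (Real.log (‖z‖ + δ) - Real.log ‖z‖) ∂μ
            ≤ ∫⁻ z, (ENNReal.ofReal (δ * Real.exp K) + 2 * lay K z) ∂μ := by
              apply lintegral_mono_ae
              filter_upwards [h.ne_zero hε hρ] with z hz0
              exact appr_le K hδ (min_le_left _ _) hz0
          _ = ENNReal.ofReal (δ * Real.exp K) + 2 * ∫⁻ z, lay K z ∂μ := by
              rw [lintegral_add_left measurable_const, lintegral_const, measure_univ, mul_one,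
                lintegral_const_mul _ (lay_meas K)]
          _ ≤ ENNReal.ofReal (κ / 2) + 2 * ENNReal.ofReal (κ / 4) := by
              gcongr
              · calc δ * Real.exp K ≤ (κ / 2 * Real.exp (-(K : ℝ))) * Real.exp K := by
                      gcongr
                      exact min_le_right _ _
                  _ = κ / 2 := by
                      rw [mul_assoc, ← Real.exp_add]
                      simp
              · exact (lintegral_lay hε h hK).trans (ENNReal.ofReal_le_ofReal hK1.le)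
          _ = ENNReal.ofReal κ := by
              rw [← ENNReal.ofReal_ofNat, ← ENNReal.ofReal_mul (by norm_num),
                ← ENNReal.ofReal_add (by positivity) (by positivity)]
              congr 1
              ring
      · filter_upwards [h.ne_zero hε hρ] with z hz0
        have hz1 : 0 < ‖z‖ := norm_pos_iff.mpr hz0
        have := Real.log_le_log hz1 (by linarith : ‖z‖ ≤ ‖z‖ + δ)
        simpa using this
      · exact (hi2.sub hi1).aestronglyMeasurable
    rw [integral_sub hi2 hi1] at h2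
    linarith

end Pool.Agent.U785.LE
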