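import Pool.Agent.U785.LE.Pliss
import Pool.Agent.U785.LE.Tail

set_option autoImplicit false

/-! # Invariant measures and the empirical measures of the critical orbit -/

open Filter Topology MeasureTheory Metric

namespace Pool.Agent.U785.LE

variable {n : ℕ} {c : ℂ}

lemma meas_f (n : ℕ) (c : ℂ) : Measurable (f n c) := (continuous_f n c).measurable

lemma Inv.mp {μ : ProbabilityMeasure ℂ} (h : Inv n c μ) :
    MeasurePreserving (f n c) (μ : Measure ℂ) μ := ⟨meas_f n c, h⟩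

lemma escape (hn : 2 ≤ n) (hc : ‖c‖ ≤ 2) {z : ℂ} (hz : 2 < ‖z‖) (k : ℕ) :
    2 + 2 ^ k * (‖z‖ - 2) ≤ ‖(f n c)^[k] z‖ := by
  induction k with
  | zero => simp
  | succ k ih =>
    rw [f_succ]
    set w := (f n c)^[k] z
    have h0 : (0 : ℝ) < 2 ^ k := by positivity
    have h1 : 2 ≤ ‖w‖ := by nlinarith
    have h2 : ‖w‖ ^ 2 ≤ ‖w‖ ^ n := pow_le_pow_right₀ (by linarith) hn
    have h3 : ‖w‖ ^ n - 2 ≤ ‖w ^ n + c‖ := by
      have := norm_sub_le (w ^ n + c) c
      rw [add_sub_cancel_right, norm_pow] at this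
      linarith
    rw [pow_succ]
    nlinarith

lemma Inv.bdd (hn : 2 ≤ n) (hc : ‖c‖ ≤ 2) {μ : ProbabilityMeasure ℂ} (h : Inv n c μ) :
    ∀ᵐ z ∂(μ : Measure ℂ), ‖z‖ ≤ 2 := by
  have hcons : Conservative (f n c) (μ : Measure ℂ) := h.mp.conservative
  have h1 : ∀ R : ℕ, ∀ᵐ z ∂(μ : Measure ℂ), ¬ (2 < ‖z‖ ∧ ‖z‖ ≤ R) := by
    intro R
    have hs : MeasurableSet {z : ℂ | 2 < ‖z‖ ∧ ‖z‖ ≤ R} :=
      (measurableSet_lt measurable_const measurable_norm).inter
        (measurableSet_le measurable_norm measurable_const)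
    filter_upwards [hcons.ae_mem_imp_frequently_image_mem hs.nullMeasurableSet] with z hz hz2
    have h2 := hz hz2
    have h3 : Tendsto (fun k : ℕ => 2 + 2 ^ k * (‖z‖ - 2)) atTop atTop := by
      apply tendsto_atTop_add_const_left
      apply Tendsto.atTop_mul_const (by linarith [hz2.1])
      exact tendsto_pow_atTop_atTop_of_one_lt (by norm_num)
    have h4 := h3.eventually_gt_atTop (R : ℝ)
    obtain ⟨k, hk1, hk2⟩ := (h2.and_eventually h4).exists
    have h5 := escape hn hc hz2.1 k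
    have h6 : ‖(f n c)^[k] z‖ ≤ R := hk1.2
    linarith
  filter_upwards [ae_all_iff.mpr h1] with z hz
  by_contra h2
  push Not at h2
  obtain ⟨R, hR⟩ := exists_nat_ge ‖z‖
  exact hz R ⟨h2, hR⟩

lemma Inv.bdd_all (hn : 2 ≤ n) (hc : ‖c‖ ≤ 2) {μ : ProbabilityMeasure ℂ} (h : Inv n c μ) :
    ∀ᵐ z ∂(μ : Measure ℂ), ∀ k, ‖(f n c)^[k] z‖ ≤ 2 := by
  rw [ae_all_iff]
  intro k
  exact (h.mp.iterate k).quasiMeasurePreserving.ae (h.bdd hn hc)

/-- The return property. -/
def Slow (n : ℕ) (c : ℂ) (E r : ℝ) : Prop :=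
  ∀ z : ℂ, ‖z - c‖ ≤ r → ∀ k : ℕ, 1 ≤ k → (k : ℝ) ≤ E → r < ‖(f n c)^[k] z - c‖

lemma Slow.meas {E r : ℝ} (hE : 0 < E) (h : Slow n c E r) {μ : ProbabilityMeasure ℂ}
    (hμ : Inv n c μ) : (μ : Measure ℂ) (closedBall c r) ≤ ENNReal.ofReal (1 / E) := by
  set K := ⌊E⌋₊ + 1 with hK
  have hB : MeasurableSet (closedBall c r) := isClosed_closedBall.measurableSet
  have hdisj : Set.PairwiseDisjoint (↑(Finset.range K))
      (fun k => (f n c)^[k] ⁻¹' closedBall c r) := by
    have key : ∀ i j : ℕ, i < j → j < K → Disjoint ((f n c)^[i] ⁻¹' closedBall c r)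
        ((f n c)^[j] ⁻¹' closedBall c r) := by
      intro i j hij hj
      rw [Set.disjoint_left]
      intro z hz1 hz2
      rw [Set.mem_preimage, mem_closedBall, dist_eq_norm] at hz1 hz2
      have h1 := h _ hz1 (j - i) (by omega) (by
        have h2 : j - i ≤ ⌊E⌋₊ := by omega
        exact (Nat.cast_le.mpr h2).trans (Nat.floor_le hE.le))
      rw [← Function.iterate_add_apply, Nat.sub_add_cancel hij.le] at h1
      linarith
    intro i hi j hj hij
    rw [Finset.mem_coe, Finset.mem_range] at hi hj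
    rcases lt_or_gt_of_ne hij with h1 | h1
    · exact key i j h1 hj
    · exact (key j i h1 hi).symm
  have h1 : (μ : Measure ℂ) (⋃ k ∈ Finset.range K, (f n c)^[k] ⁻¹' closedBall c r) =
      ∑ k ∈ Finset.range K, (μ : Measure ℂ) ((f n c)^[k] ⁻¹' closedBall c r) :=
    measure_biUnion_finset hdisj fun k _ => ((meas_f n c).iterate k) hB
  have h2 : ∀ k ∈ Finset.range K, (μ : Measure ℂ) ((f n c)^[k] ⁻¹' closedBall c r) =
      (μ : Measure ℂ) (closedBall c r) := fun k _ =>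
    (hμ.mp.iterate k).measure_preimage hB.nullMeasurableSet
  rw [Finset.sum_congr rfl h2, Finset.sum_const, Finset.card_range, nsmul_eq_mul] at h1
  have h3 : (K : ENNReal) * (μ : Measure ℂ) (closedBall c r) ≤ 1 := by
    rw [← h1]; exact prob_le_one
  have hK0 : (K : ENNReal) ≠ 0 := by simp [hK]
  have h4 : (μ : Measure ℂ) (closedBall c r) ≤ (K : ENNReal)⁻¹ := by
    rw [ENNReal.le_inv_iff_mul_le, mul_comm]
    exact h3
  refine h4.trans ?_
  have h5 : (E : ℝ) ≤ K := by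
    rw [hK]; push_cast; exact (Nat.lt_floor_add_one E).le
  rw [← ENNReal.ofReal_natCast, ← ENNReal.ofReal_inv_of_pos (by linarith)]
  apply ENNReal.ofReal_le_ofReal
  rw [inv_eq_one_div]
  exact one_div_le_one_div_of_le hE h5

/-- Invariant measures are thin. -/
lemma Inv.thin (hn : 2 ≤ n) (hc : ‖c‖ ≤ 2) {ε ρ : ℝ} (hρ : ρ ≤ 1)
    (h : ∀ r, 0 < r → r < ρ → Slow n c (1 / slow ε r) r) {μ : ProbabilityMeasure ℂ}
    (hμ : Inv n c μ) : Thin ε ρ (μ : Measure ℂ) := by
  refine ⟨inferInstance, hμ.bdd hn hc, fun r hr0 hr => ?_⟩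
  have h1 := (h r hr0 hr).meas (by have := slow_pos ε r; positivity) hμ
  rw [one_div_one_div] at h1
  refine le_trans ?_ h1
  refine le_trans (measure_mono (t := f n c ⁻¹' closedBall c r) ?_) (le_of_eq
    (hμ.mp.measure_preimage isClosed_closedBall.measurableSet.nullMeasurableSet))
  intro z hz
  rw [mem_closedBall, dist_zero_right] at hz
  rw [Set.mem_preimage, mem_closedBall, dist_eq_norm]
  have e : f n c z - c = z ^ n := by simp [f]
  rw [e, norm_pow]
  calc ‖z‖ ^ n ≤ r ^ n := by gcongr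
    _ ≤ r := pow_le_of_le_one hr0.le (by linarith) (by omega)

open Classical in
lemma Slow.count (hn : 2 ≤ n) {E r : ℝ} (hE : 0 < E) (hr0 : 0 ≤ r) (hr1 : r ≤ 1)
    (h : Slow n c E r) (N : ℕ) :
    (((Finset.range (N + 1)).filter (fun k => ‖(f n c)^[k] c‖ ≤ r)).card : ℝ) ≤ (N + 1) / E := by
  set K := ⌊E⌋₊ + 1 with hK
  set S := (Finset.range (N + 1)).filter (fun k => ‖(f n c)^[k] c‖ ≤ r) with hS
  have hmem : ∀ k ∈ S, k < N + 1 ∧ ‖(f n c)^[k + 1] c - c‖ ≤ r := by
    intro k hk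
    rw [hS, Finset.mem_filter, Finset.mem_range] at hk
    refine ⟨hk.1, ?_⟩
    rw [f_succ, add_sub_cancel_right, norm_pow]
    calc ‖(f n c)^[k] c‖ ^ n ≤ r ^ n := by gcongr; exact hk.2
      _ ≤ r := pow_le_of_le_one hr0 hr1 (by omega)
  have hmaps : ∀ k ∈ S, (k + 1) / K ∈ Finset.Icc 1 ((N + 1) / K) := by
    intro k hk
    obtain ⟨h1, h2⟩ := hmem k hk
    rw [Finset.mem_Icc]
    constructor
    · rw [Nat.one_le_div_iff (by omega)]
      by_contra h3
      push Not at h3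
      have h4 : k + 1 ≤ ⌊E⌋₊ := by omega
      have h5 := h c (by simpa using hr0) (k + 1) (by omega)
        ((Nat.cast_le.mpr h4).trans (Nat.floor_le hE.le))
      linarith
    · exact Nat.div_le_div_right (by omega)
  have hinj : Set.InjOn (fun k => (k + 1) / K) (S : Set ℕ) := by
    have key : ∀ i ∈ S, ∀ j ∈ S, i < j → (i + 1) / K ≠ (j + 1) / K := by
      intro i hi j hj hij heq
      obtain ⟨h1, h2⟩ := hmem i hi
      obtain ⟨h3, h4⟩ := hmem j hj
      have h5 : j - i < K := by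
        have h6 := Nat.div_add_mod (i + 1) K
        have h7 := Nat.div_add_mod (j + 1) K
        have h8 := Nat.mod_lt (j + 1) (by omega : 0 < K)
        rw [heq] at h6
        omega
      have h9 := h _ h2 (j - i) (by omega)
        ((Nat.cast_le.mpr (by omega : j - i ≤ ⌊E⌋₊)).trans (Nat.floor_le hE.le))
      rw [← Function.iterate_add_apply] at h9
      have h10 : j - i + (i + 1) = j + 1 := by omega
      rw [h10] at h9
      linarith
    intro i hi j hj hij
    rw [Finset.mem_coe] at hi hj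
    rcases lt_trichotomy i j with h1 | h1 | h1
    · exact absurd hij (key i hi j hj h1)
    · exact h1
    · exact absurd hij.symm (key j hj i hi h1)
  have h1 := Finset.card_le_card_of_injOn _ hmaps hinj
  rw [Nat.card_Icc, Nat.add_sub_cancel] at h1
  calc (S.card : ℝ) ≤ (((N + 1) / K : ℕ) : ℝ) := by exact_mod_cast h1
    _ ≤ ((N + 1 : ℕ) : ℝ) / K := Nat.cast_div_le
    _ ≤ (N + 1) / E := by
      push_cast
      gcongr
      rw [hK]; push_cast; exact (Nat.lt_floor_add_one E).le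

lemma integral_empM {N : ℕ} (g : ℂ → ℝ) :
    ∫ z, g z ∂(empM n c N) = (∑ k ∈ Finset.range (N + 1), g ((f n c)^[k] c)) / (N + 1) := by
  rw [empM, integral_smul_measure, integral_finsetSum_measure]
  · simp only [integral_dirac]
    rw [ENNReal.toReal_inv, ENNReal.toReal_natCast, smul_eq_mul, div_eq_inv_mul]
    push_cast
    rfl
  · intro k _
    exact integrable_dirac (by simp)

lemma empM_apply {N : ℕ} {s : Set ℂ} (hs : MeasurableSet s) : empM n c N s =
    ((N + 1 : ℕ) : ENNReal)⁻¹ * ∑ k ∈ Finset.range (N + 1), s.indicator 1 ((f n c)^[k] c) := by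
  rw [empM, Measure.smul_apply, Measure.finsetSum_apply, smul_eq_mul]
  congr 1
  exact Finset.sum_congr rfl fun k _ => Measure.dirac_apply' _ hs

/-- The empirical measures are thin. -/
lemma thin_emp (hn : 2 ≤ n) (hb : ∀ k, ‖(f n c)^[k] c‖ ≤ 2) {ε ρ : ℝ} (hρ : ρ ≤ 1)
    (h : ∀ r, 0 < r → r < ρ → Slow n c (1 / slow ε r) r) (N : ℕ) : Thin ε ρ (empM n c N) := by
  classical
  refine ⟨inferInstance, ?_, fun r hr0 hr => ?_⟩
  · rw [ae_iff]
    have hs : MeasurableSet {a : ℂ | ¬ ‖a‖ ≤ 2} :=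
      (measurableSet_le measurable_norm measurable_const).compl
    rw [empM_apply hs, Finset.sum_eq_zero, mul_zero]
    intro k _
    apply Set.indicator_of_notMem
    rw [Set.mem_ofPred_eq, not_not]
    exact hb k
  · have h1 := (h r hr0 hr).count hn (by have := slow_pos ε r; positivity) hr0.le (by linarith) N
    rw [empM_apply isClosed_closedBall.measurableSet]
    have h2 : ∑ k ∈ Finset.range (N + 1),
        (closedBall (0 : ℂ) r).indicator (1 : ℂ → ENNReal) ((f n c)^[k] c) =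
        (((Finset.range (N + 1)).filter (fun k => ‖(f n c)^[k] c‖ ≤ r)).card : ENNReal) := by
      rw [Finset.card_filter]
      push_cast
      apply Finset.sum_congr rfl
      intro k _
      by_cases h3 : ‖(f n c)^[k] c‖ ≤ r
      · rw [Set.indicator_of_mem (by rwa [mem_closedBall, dist_zero_right]), if_pos h3]
        simp
      · rw [Set.indicator_of_notMem (by rwa [mem_closedBall, dist_zero_right]), if_neg h3]
        
    rw [h2, ← ENNReal.ofReal_natCast, ← ENNReal.ofReal_natCast,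
      ← ENNReal.ofReal_inv_of_pos (by positivity), ← ENNReal.ofReal_mul (by positivity)]
    apply ENNReal.ofReal_le_ofReal
    rw [div_div_eq_mul_div, div_one] at h1
    have hN : (0 : ℝ) < N + 1 := by positivity
    push_cast
    rw [inv_mul_le_iff₀ hN]
    exact h1

/-- An orbit with sum at most the average. -/
lemma Inv.exists_orbit (hn : 2 ≤ n) (hc : ‖c‖ ≤ 2) {μ : ProbabilityMeasure ℂ} (hμ : Inv n c μ)
    {g : ℂ → ℝ} (hg : Integrable g (μ : Measure ℂ)) (N : ℕ) :
    ∃ z, (∀ k, ‖(f n c)^[k] z‖ ≤ 2) ∧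
      ∑ k ∈ Finset.range N, g ((f n c)^[k] z) ≤ N * ∫ z, g z ∂(μ : Measure ℂ) := by
  have h1 : ∀ k, Integrable (fun z => g ((f n c)^[k] z)) (μ : Measure ℂ) := fun k =>
    (hμ.mp.iterate k).integrable_comp_of_integrable hg
  have h2 : ∀ k, ∫ z, g ((f n c)^[k] z) ∂(μ : Measure ℂ) = ∫ z, g z ∂(μ : Measure ℂ) := by
    intro k
    have hm : Measure.map (f n c)^[k] (μ : Measure ℂ) = μ := (hμ.mp.iterate k).map_eq
    have h3 := integral_map (μ := (μ : Measure ℂ)) (φ := (f n c)^[k])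
      ((meas_f n c).iterate k).aemeasurable (f := g) (by rw [hm]; exact hg.aestronglyMeasurable)
    rw [hm] at h3
    exact h3.symm
  have h4 : Integrable (fun z => ∑ k ∈ Finset.range N, g ((f n c)^[k] z)) (μ : Measure ℂ) :=
    integrable_finsetSum _ fun k _ => h1 k
  have h5 : (μ : Measure ℂ) {z | ¬ ∀ k, ‖(f n c)^[k] z‖ ≤ 2} = 0 := hμ.bdd_all hn hc
  obtain ⟨z, hz1, hz2⟩ := exists_notMem_null_le_integral h4 h5
  refine ⟨z, ?_, ?_⟩
  · simpa using hz1
  · refine hz2.trans (le_of_eq ?_)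
    rw [integral_finsetSum _ fun k _ => h1 k, Finset.sum_congr rfl fun k _ => h2 k]
    simp

lemma log_lam (hn : 2 ≤ n) {δ : ℝ} (hδ : 0 < δ) (z : ℂ) :
    Real.log (lam n δ z) = Real.log n + (n - 1 : ℝ) * Real.log (‖z‖ + δ) := by
  have hn0 : (0 : ℝ) < n := by exact_mod_cast (by omega : 0 < n)
  have h1 : 0 < ‖z‖ + δ := by positivity
  rw [lam, Real.log_mul hn0.ne' (by positivity), Real.log_pow, Nat.cast_sub (by omega),
    Nat.cast_one]

lemma log_deriv (hn : 2 ≤ n) {z : ℂ} (hz : z ≠ 0) :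
    Real.log ‖deriv (f n c) z‖ = Real.log n + (n - 1 : ℝ) * Real.log ‖z‖ := by
  have hn0 : (0 : ℝ) < n := by exact_mod_cast (by omega : 0 < n)
  have h1 : 0 < ‖z‖ := norm_pos_iff.mpr hz
  rw [(hasDerivAt_f n c z).deriv, norm_mul, norm_pow, Complex.norm_natCast,
    Real.log_mul hn0.ne' (by positivity), Real.log_pow, Nat.cast_sub (by omega), Nat.cast_one]

/-- The exponent of a thin measure. -/
lemma Thin.expo_eq (hn : 2 ≤ n) {ε ρ : ℝ} (hε : 0 < ε) (hρ : 0 < ρ) {μ : ProbabilityMeasure ℂ}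
    (h : Thin ε ρ (μ : Measure ℂ)) :
    Integrable (fun z => Real.log ‖deriv (f n c) z‖) (μ : Measure ℂ) ∧
    expo n c μ = Real.log n + (n - 1 : ℝ) * ∫ z, Real.log ‖z‖ ∂(μ : Measure ℂ) := by
  have h1 : (fun z => Real.log n + (n - 1 : ℝ) * Real.log ‖z‖) =ᵐ[(μ : Measure ℂ)]
      (fun z => Real.log ‖deriv (f n c) z‖) := by
    filter_upwards [h.ne_zero hε hρ] with z hz
    rw [log_deriv hn hz]
  have h2 := h.integrable_log hε hρ
  have h3 : Integrable (fun z => Real.log n + (n - 1 : ℝ) * Real.log ‖z‖) (μ : Measure ℂ) :=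
    (integrable_const _).add (h2.const_mul _)
  refine ⟨h3.congr h1, ?_⟩
  rw [expo, ← integral_congr_ae h1, integral_add (integrable_const _) (h2.const_mul _),
    integral_const_mul]
  simp

/-- The exponent is not negative. -/
lemma Inv.expo_nonneg (hn : 2 ≤ n) (hc : ‖c‖ ≤ 2) {ε ρ : ℝ} (hε : 0 < ε) (hρ : 0 < ρ)
    {μ : ProbabilityMeasure ℂ} (hμ : Inv n c μ) (h : Thin ε ρ (μ : Measure ℂ))
    (hcn : c ∉ hyp n) : 0 ≤ expo n c μ := by
  by_contra hneg
  push Not at hneg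
  obtain ⟨-, h1⟩ := h.expo_eq (c := c) hn hε hρ
  have hn1 : (1 : ℝ) ≤ n - 1 := by
    have : (2 : ℝ) ≤ n := by exact_mod_cast hn
    linarith
  set χ := expo n c μ with hχ
  obtain ⟨δ, hδ, -, h2⟩ := unif_appr hε hρ (κ := -χ / (2 * (n - 1)))
    (div_pos (by linarith) (by linarith))
  have h3 := (h2 _ h).2
  obtain ⟨N₀, hN₀⟩ := pliss_cycle hn hδ (η := -χ / 4) (by linarith)
  have hi : Integrable (fun z => Real.log (lam n δ z)) (μ : Measure ℂ) := by
    simp_rw [log_lam hn hδ]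
    exact (integrable_const _).add ((h.integrable_appr hδ).const_mul _)
  obtain ⟨z, hz1, hz2⟩ := hμ.exists_orbit hn hc hi N₀
  refine hcn (hN₀ c z hz1 N₀ le_rfl (hz2.trans ?_))
  have h4 : ∫ z, Real.log (lam n δ z) ∂(μ : Measure ℂ) ≤ χ / 2 := by
    simp_rw [log_lam hn hδ]
    rw [integral_add (integrable_const _) ((h.integrable_appr hδ).const_mul _),
      integral_const_mul]
    simp only [integral_const, probReal_univ, smul_eq_mul, one_mul]
    have h5 : (n - 1 : ℝ) * ∫ z, Real.log (‖z‖ + δ) ∂(μ : Measure ℂ) ≤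
        (n - 1 : ℝ) * (∫ z, Real.log ‖z‖ ∂(μ : Measure ℂ) + -χ / (2 * (n - 1))) := by gcongr
    have h6 : (n - 1 : ℝ) * (-χ / (2 * (n - 1))) = -χ / 2 := by
      field_simp
    rw [mul_add, h6] at h5
    linarith
  have hN : (0 : ℝ) ≤ N₀ := Nat.cast_nonneg _
  calc (N₀ : ℝ) * ∫ z, Real.log (lam n δ z) ∂(μ : Measure ℂ) ≤ N₀ * (χ / 2) := by gcongr
    _ = _ := by ring

end Pool.Agent.U785.LE
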