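import Pool.Agent.U785.LE.Defs

set_option autoImplicit false

/-! # Orbits with negative exponent give attracting cycles -/

open Filter Topology Metric

namespace Pool.Agent.U785.LE

/-- The Lipschitz constant of `f` on the disc of radius `δ` about `z`. -/
noncomputable def lam (n : ℕ) (δ : ℝ) (z : ℂ) : ℝ := n * (‖z‖ + δ) ^ (n - 1)

lemma lam_pos {n : ℕ} (hn : 2 ≤ n) {δ : ℝ} (hδ : 0 < δ) (z : ℂ) : 0 < lam n δ z := by
  have : 0 < (n : ℝ) := by exact_mod_cast (by omega : 0 < n)
  unfold lam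
  positivity

lemma f_succ (n : ℕ) (c z : ℂ) (k : ℕ) : (f n c)^[k + 1] z = ((f n c)^[k] z) ^ n + c := by
  rw [Function.iterate_succ_apply']; rfl

lemma hasDerivAt_f (n : ℕ) (c z : ℂ) : HasDerivAt (f n c) (n * z ^ (n - 1)) z :=
  (hasDerivAt_pow n z).add_const c

lemma continuous_f (n : ℕ) (c : ℂ) : Continuous (f n c) :=
  (continuous_pow n).add continuous_const

lemma differentiable_iter (n : ℕ) (c : ℂ) (k : ℕ) : Differentiable ℂ (f n c)^[k] := by
  have : Differentiable ℂ (f n c) := fun z => (hasDerivAt_f n c z).differentiableAt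
  exact this.iterate k

lemma lip_f {n : ℕ} {c : ℂ} {δ : ℝ} {x y z : ℂ} (hy : ‖y - x‖ ≤ δ)
    (hz : ‖z - x‖ ≤ δ) : ‖f n c y - f n c z‖ ≤ lam n δ x * ‖y - z‖ := by
  refine Convex.norm_image_sub_le_of_norm_hasDerivWithin_le (s := closedBall x δ)
    (f' := fun w : ℂ => (n : ℂ) * w ^ (n - 1))
    (fun w _ => (hasDerivAt_f n c w).hasDerivWithinAt) ?_ (convex_closedBall (E := ℂ) x δ)
    (by rwa [mem_closedBall, dist_eq_norm]) (by rwa [mem_closedBall, dist_eq_norm])
  intro w hw
  rw [mem_closedBall, dist_eq_norm] at hw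
  rw [norm_mul, norm_pow, Complex.norm_natCast, lam]
  gcongr
  calc ‖w‖ = ‖x + (w - x)‖ := by ring_nf
    _ ≤ ‖x‖ + ‖w - x‖ := norm_add_le _ _
    _ ≤ ‖x‖ + δ := by gcongr

/-- The contraction along an orbit. -/
lemma lip_iter {n : ℕ} {c : ℂ} {δ : ℝ} (hδ : 0 ≤ δ) {x : ℂ} {J : ℕ}
    (h : ∀ j ≤ J, ∏ i ∈ Finset.range j, lam n δ ((f n c)^[i] x) ≤ 1) :
    ∀ j ≤ J, ∀ y z : ℂ, ‖y - x‖ ≤ δ → ‖z - x‖ ≤ δ →
      ‖(f n c)^[j] y - (f n c)^[j] z‖ ≤
        (∏ i ∈ Finset.range j, lam n δ ((f n c)^[i] x)) * ‖y - z‖ := by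
  intro j
  induction j with
  | zero => intro _ y z _ _; simp
  | succ j ih =>
    intro hj y z hy hz
    have ih' := ih (by omega)
    have hx : ‖x - x‖ ≤ δ := by simpa using hδ
    have hP := h j (by omega)
    have hb : ∀ w, ‖w - x‖ ≤ δ → ‖(f n c)^[j] w - (f n c)^[j] x‖ ≤ δ := by
      intro w hw
      refine (ih' w x hw hx).trans ?_
      calc (∏ i ∈ Finset.range j, lam n δ ((f n c)^[i] x)) * ‖w - x‖ ≤ 1 * ‖w - x‖ := by gcongr
        _ ≤ δ := by linarith
    rw [Function.iterate_succ_apply', Function.iterate_succ_apply', Finset.prod_range_succ]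
    refine (lip_f (hb y hy) (hb z hz)).trans ?_
    have hl : 0 ≤ lam n δ ((f n c)^[j] x) := by unfold lam; positivity
    calc lam n δ ((f n c)^[j] x) * ‖(f n c)^[j] y - (f n c)^[j] z‖
        ≤ lam n δ ((f n c)^[j] x) *
          ((∏ i ∈ Finset.range j, lam n δ ((f n c)^[i] x)) * ‖y - z‖) := by
          gcongr
          exact ih' y z hy hz
      _ = _ := by ring

/-- A disc mapped well inside itself contains an attracting periodic point. -/
lemma cycle_of_contr {n : ℕ} {c : ℂ} {δ : ℝ} (hδ : 0 < δ) {x : ℂ} {p : ℕ} (hp : 0 < p)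
    {L : ℝ} (hL0 : 0 ≤ L) (hL : L ≤ 1 / 4)
    (h1 : ∀ y z : ℂ, ‖y - x‖ ≤ δ → ‖z - x‖ ≤ δ → ‖(f n c)^[p] y - (f n c)^[p] z‖ ≤ L * ‖y - z‖)
    (h2 : ‖(f n c)^[p] x - x‖ ≤ δ / 4) : c ∈ hyp n := by
  have hmaps : ∀ y, ‖y - x‖ ≤ δ → ‖(f n c)^[p] y - x‖ ≤ δ / 2 := by
    intro y hy
    have h3 := h1 y x hy (by simpa using hδ.le)
    have h4 : L * ‖y - x‖ ≤ 1 / 4 * δ := by gcongr
    calc ‖(f n c)^[p] y - x‖ = ‖((f n c)^[p] y - (f n c)^[p] x) + ((f n c)^[p] x - x)‖ := by
          ring_nf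
      _ ≤ ‖(f n c)^[p] y - (f n c)^[p] x‖ + ‖(f n c)^[p] x - x‖ := norm_add_le _ _
      _ ≤ δ / 2 := by linarith
  have hlip : LipschitzOnWith (Real.toNNReal L) (f n c)^[p] (closedBall x δ) := by
    apply LipschitzOnWith.of_dist_le_mul
    intro y hy z hz
    rw [dist_eq_norm, dist_eq_norm, Real.coe_toNNReal _ hL0]
    exact h1 y z (by rwa [mem_closedBall, dist_eq_norm] at hy)
      (by rwa [mem_closedBall, dist_eq_norm] at hz)
  have hsf : Set.MapsTo (f n c)^[p] (closedBall x δ) (closedBall x δ) := by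
    intro y hy
    rw [mem_closedBall, dist_eq_norm] at hy ⊢
    linarith [hmaps y hy]
  have hK : Real.toNNReal L < 1 := by
    rw [← Real.toNNReal_one]
    exact (Real.toNNReal_lt_toNNReal_iff (by norm_num)).mpr (by linarith)
  have hcon : ContractingWith (Real.toNNReal L) (hsf.restrict (f n c)^[p] _ _) :=
    ⟨hK, hlip.mapsToRestrict hsf⟩
  obtain ⟨y, hy, hfix, -⟩ := hcon.exists_fixedPoint' isClosed_closedBall.isComplete hsf
    (mem_closedBall_self hδ.le) (edist_ne_top _ _)
  refine ⟨p, y, hp, hfix, (differentiable_iter n c p) y, ?_⟩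
  have hy2 : ‖y - x‖ ≤ δ / 2 := by
    have h5 := hmaps y (by rwa [mem_closedBall, dist_eq_norm] at hy)
    rwa [hfix.eq] at h5
  have hnb : closedBall x δ ∈ 𝓝 y := by
    apply Filter.mem_of_superset (isOpen_ball.mem_nhds (x := y) (s := ball x δ) _)
      ball_subset_closedBall
    rw [mem_ball, dist_eq_norm]
    linarith
  have h6 := norm_deriv_le_of_lipschitzOn hnb hlip
  rw [Real.coe_toNNReal _ hL0] at h6
  linarith

open Classical in
/-- The Pliss times of a sequence. -/
noncomputable def good (S : ℕ → ℝ) (N m : ℕ) : Finset ℕ :=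
  (Finset.range N).filter (fun i => m ≤ i ∧ ∀ k, i < k → k ≤ N → S k ≤ S i)

lemma pliss_aux {S : ℕ → ℝ} {N : ℕ} {A : ℝ} (hA : 0 ≤ A) (hS : ∀ k < N, S k - A ≤ S (k + 1)) :
    ∀ j ≤ N, ∀ k, N - j ≤ k → k ≤ N → S k - S N ≤ A * (good S N (N - j)).card := by
  intro j
  induction j with
  | zero =>
    intro _ k hk hk2
    have : k = N := by omega
    subst this
    rw [sub_self]
    positivity
  | succ j ih =>
    intro hj k hk hk2
    have ih' := ih (by omega)
    have hsub : good S N (N - j) ⊆ good S N (N - (j + 1)) := by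
      intro i hi
      unfold good at hi ⊢
      simp only [Finset.mem_filter, Finset.mem_range] at hi ⊢
      exact ⟨hi.1, by omega, hi.2.2⟩
    have hcard : ((good S N (N - j)).card : ℝ) ≤ (good S N (N - (j + 1))).card := by
      exact_mod_cast Finset.card_le_card hsub
    by_cases hkj : N - j ≤ k
    · refine (ih' k hkj hk2).trans ?_
      gcongr
    have hkm : k = N - (j + 1) := by omega
    by_cases hG : ∀ l, k < l → l ≤ N → S l ≤ S k
    · have hmem : k ∈ good S N (N - (j + 1)) := by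
        unfold good
        simp only [Finset.mem_filter, Finset.mem_range]
        exact ⟨by omega, by omega, hG⟩
      have hnot : k ∉ good S N (N - j) := by
        unfold good
        simp only [Finset.mem_filter, Finset.mem_range, not_and]
        intro _ h
        omega
      have hins : insert k (good S N (N - j)) ⊆ good S N (N - (j + 1)) := by
        intro i hi
        rcases Finset.mem_insert.mp hi with rfl | h
        · exact hmem
        · exact hsub h
      have hc2 := Finset.card_le_card hins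
      rw [Finset.card_insert_of_notMem hnot] at hc2
      have hc3 : ((good S N (N - j)).card : ℝ) + 1 ≤ (good S N (N - (j + 1))).card := by
        exact_mod_cast hc2
      have h1 := hS k (by omega)
      have h2 := ih' (k + 1) (by omega) (by omega)
      nlinarith
    · push Not at hG
      obtain ⟨l, hl1, hl2, hl3⟩ := hG
      have h1 := ih' l (by omega) hl2
      have h2 : A * ((good S N (N - j)).card : ℝ) ≤ A * (good S N (N - (j + 1))).card := by gcongr
      linarith

lemma pliss {S : ℕ → ℝ} {N : ℕ} {A : ℝ} (hA : 0 ≤ A) (hS : ∀ k < N, S k - A ≤ S (k + 1)) :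
    S 0 - S N ≤ A * (good S N 0).card := by
  have := pliss_aux hA hS N le_rfl 0 (by omega) (by omega)
  rwa [Nat.sub_self] at this

lemma mem_good {S : ℕ → ℝ} {N i : ℕ} (h : i ∈ good S N 0) :
    i < N ∧ ∀ k, i < k → k ≤ N → S k ≤ S i := by
  unfold good at h
  simp only [Finset.mem_filter, Finset.mem_range] at h
  exact ⟨h.1, h.2.2⟩

/-- A colouring of the disc of radius `2` with small classes. -/
lemma colour {δ : ℝ} (hδ : 0 < δ) : ∃ (T : Finset ℂ) (g : ℂ → ℂ), (∀ x, ‖x‖ ≤ 2 → g x ∈ T) ∧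
    ∀ x y, ‖x‖ ≤ 2 → ‖y‖ ≤ 2 → g x = g y → ‖x - y‖ ≤ δ / 4 := by
  have hc : IsCompact (closedBall (0 : ℂ) 2) := isCompact_closedBall 0 2
  obtain ⟨T, -, hfin, hT⟩ := hc.finite_cover_balls (e := δ / 8) (by positivity)
  have hch : ∀ x : ℂ, ∃ t, ‖x‖ ≤ 2 → t ∈ T ∧ ‖x - t‖ < δ / 8 := by
    intro x
    by_cases hx : ‖x‖ ≤ 2
    · have : x ∈ ⋃ t ∈ T, ball t (δ / 8) := hT (by rwa [mem_closedBall, dist_zero_right])
      simp only [Set.mem_iUnion, exists_prop] at this
      obtain ⟨t, ht1, ht2⟩ := this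
      exact ⟨t, fun _ => ⟨ht1, by rwa [mem_ball, dist_eq_norm] at ht2⟩⟩
    · exact ⟨0, fun h => absurd h hx⟩
  choose g hg using hch
  refine ⟨hfin.toFinset, g, fun x hx => by simpa using (hg x hx).1, ?_⟩
  intro x y hx hy hxy
  have h1 := (hg x hx).2
  have h2 := (hg y hy).2
  rw [← hxy] at h2
  calc ‖x - y‖ = ‖(x - g x) - (y - g x)‖ := by ring_nf
    _ ≤ ‖x - g x‖ + ‖y - g x‖ := norm_sub_le _ _
    _ ≤ δ / 4 := by linarith

/-- Orbits along which the product of the Lipschitz constants is exponentially small force an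
attracting cycle. -/
theorem pliss_cycle {n : ℕ} (hn : 2 ≤ n) {δ η : ℝ} (hδ : 0 < δ) (hη : 0 < η) :
    ∃ N₀ : ℕ, ∀ c z : ℂ, (∀ k, ‖(f n c)^[k] z‖ ≤ 2) → ∀ N ≥ N₀,
      ∑ k ∈ Finset.range N, Real.log (lam n δ ((f n c)^[k] z)) ≤ -(2 * η * N) → c ∈ hyp n := by
  classical
  obtain ⟨T, g, hg1, hg2⟩ := colour hδ
  obtain ⟨J, hJ⟩ : ∃ J : ℕ, 2 / η ≤ J := exists_nat_ge _
  have hJ2 : 2 ≤ η * J := by
    rw [div_le_iff₀ hη] at hJ
    linarith
  set A : ℝ := |Real.log (n * δ ^ (n - 1))| + 1 with hA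
  have hA0 : 0 < A := by positivity
  obtain ⟨N₀, hN₀⟩ : ∃ N₀ : ℕ, A * ((T.card * (J + 1) : ℕ) + 1) / η ≤ N₀ := exists_nat_ge _
  refine ⟨N₀, fun c z hb N hN hsum => ?_⟩
  set a : ℕ → ℝ := fun k => Real.log (lam n δ ((f n c)^[k] z)) with ha
  set S : ℕ → ℝ := fun k => ∑ i ∈ Finset.range k, (a i + η) with hSd
  have hn0 : (0 : ℝ) < n := by exact_mod_cast (by omega : 0 < n)
  have hstep : ∀ k < N, S k - A ≤ S (k + 1) := by
    intro k _
    simp only [hSd, Finset.sum_range_succ]
    have h1 : Real.log (n * δ ^ (n - 1)) ≤ a k := by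
      apply Real.log_le_log (by positivity)
      unfold lam
      gcongr
      linarith [norm_nonneg ((f n c)^[k] z)]
    have h2 := neg_abs_le (Real.log (n * δ ^ (n - 1)))
    linarith
  have h1 := pliss hA0.le hstep
  have hS0 : S 0 = 0 := by simp [hSd]
  have hSN : S N ≤ -(η * N) := by
    have e : S N = ∑ i ∈ Finset.range N, a i + η * N := by
      simp only [hSd, Finset.sum_add_distrib, Finset.sum_const, Finset.card_range, nsmul_eq_mul]
      ring
    rw [e]
    linarith
  have hcard : T.card * (J + 1) < (good S N 0).card := by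
    have h2 : η * N ≤ A * (good S N 0).card := by linarith
    have h3 : A * ((T.card * (J + 1) : ℕ) + 1) ≤ η * N := by
      have hNr : (N₀ : ℝ) ≤ N := by exact_mod_cast hN
      have := hN₀.trans hNr
      rw [div_le_iff₀ hη] at this
      linarith
    have h4 : (((T.card * (J + 1) : ℕ) : ℝ) + 1) ≤ (good S N 0).card :=
      le_of_mul_le_mul_left (h3.trans h2) hA0
    exact_mod_cast h4
  obtain ⟨t, -, ht⟩ := Finset.exists_lt_card_fiber_of_mul_lt_card_of_maps_to
    (s := good S N 0) (t := T) (f := fun k => g ((f n c)^[k] z)) (n := J + 1)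
    (fun k _ => hg1 _ (hb k)) hcard
  set F := (good S N 0).filter (fun k => g ((f n c)^[k] z) = t) with hF
  have hFne : F.Nonempty := Finset.card_pos.mp (by omega)
  set m := F.min' hFne with hm
  set m' := F.max' hFne with hm'
  have hmF : m ∈ F := F.min'_mem hFne
  have hmF' : m' ∈ F := F.max'_mem hFne
  have hle : F ⊆ Finset.Icc m m' := fun i hi =>
    Finset.mem_Icc.mpr ⟨F.min'_le i hi, F.le_max' i hi⟩
  have hc5 := Finset.card_le_card hle
  rw [Nat.card_Icc] at hc5
  obtain ⟨p, hp⟩ : ∃ p, m' = m + p := ⟨m' - m, by omega⟩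
  have hpJ : J ≤ p := by omega
  have hJ1 : 0 < J := by
    rcases Nat.eq_zero_or_pos J with h | h
    · rw [h] at hJ2; norm_num at hJ2
    · exact h
  have hmG := mem_good (Finset.mem_filter.mp hmF).1
  have hmG' := mem_good (Finset.mem_filter.mp hmF').1
  -- products
  have hprod : ∀ j, m + j ≤ N → ∏ i ∈ Finset.range j, lam n δ ((f n c)^[i] ((f n c)^[m] z)) ≤
      Real.exp (-(η * j)) := by
    intro j hj
    have e1 : ∏ i ∈ Finset.range j, lam n δ ((f n c)^[i] ((f n c)^[m] z)) =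
        Real.exp (∑ i ∈ Finset.range j, a (m + i)) := by
      rw [Real.exp_sum]
      apply Finset.prod_congr rfl
      intro i _
      simp only [ha]
      rw [Real.exp_log (lam_pos hn hδ _), ← Function.iterate_add_apply, add_comm i m]
    rw [e1, Real.exp_le_exp]
    have e2 : S (m + j) = S m + (∑ i ∈ Finset.range j, a (m + i) + η * j) := by
      simp only [hSd, Finset.sum_range_add, Finset.sum_add_distrib, Finset.sum_const,
        Finset.card_range, nsmul_eq_mul]
      push_cast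
      ring
    rcases Nat.eq_zero_or_pos j with h | h
    · subst h; simp
    · have := hmG.2 (m + j) (by omega) hj
      linarith
  have hprod1 : ∀ j ≤ p, ∏ i ∈ Finset.range j, lam n δ ((f n c)^[i] ((f n c)^[m] z)) ≤ 1 := by
    intro j hj
    refine (hprod j (by omega)).trans ?_
    rw [Real.exp_le_one_iff]
    have : (0 : ℝ) ≤ j := Nat.cast_nonneg j
    nlinarith
  have hlip := lip_iter (x := (f n c)^[m] z) hδ.le hprod1 p le_rfl
  have hpr := hprod p (by omega)
  have hP0 : 0 ≤ ∏ i ∈ Finset.range p, lam n δ ((f n c)^[i] ((f n c)^[m] z)) :=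
    Finset.prod_nonneg fun i _ => (lam_pos hn hδ _).le
  refine cycle_of_contr hδ (x := (f n c)^[m] z) (p := p) (by omega) hP0 ?_ hlip ?_
  · refine hpr.trans ?_
    have h6 : (2 : ℝ) ≤ η * p := by
      have : (J : ℝ) ≤ p := by exact_mod_cast hpJ
      nlinarith
    have h7 : Real.exp (-(η * p)) ≤ Real.exp (-2) := Real.exp_le_exp.mpr (by linarith)
    have h8 : Real.exp (-2) ≤ 1 / 4 := by
      have h9 : Real.exp (-2) = (Real.exp 1)⁻¹ ^ 2 := by
        rw [← Real.exp_neg, ← Real.exp_nat_mul]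
        norm_num
      have h10 : (Real.exp 1)⁻¹ ≤ 1 / 2 := by
        rw [inv_eq_one_div]
        apply one_div_le_one_div_of_le (by norm_num)
        linarith [Real.add_one_le_exp (1 : ℝ)]
      rw [h9]
      have h11 : 0 ≤ (Real.exp 1)⁻¹ := by positivity
      nlinarith
    linarith
  · rw [← Function.iterate_add_apply, add_comm p m, ← hp]
    apply hg2 _ _ (hb _) (hb _)
    rw [(Finset.mem_filter.mp hmF').2, (Finset.mem_filter.mp hmF).2]

end Pool.Agent.U785.LE
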