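import Pool.Agent.U785.LE.Meas
import Pool.Agent.T2H09.LW.Pseudo

set_option autoImplicit false

/-! # Return times to small discs about the critical value -/

open Filter Topology Metric

namespace Pool.Agent.U785.LE

open Pool.Agent.W746.LD

lemma near_of {n N : ℕ} {c : ℂ} {s s' T : ℝ} (h : Pool.Agent.T2H09.LV.Near n N c s)
    (hs : s ≤ s') (hN : (N : ℝ) ≤ T) : Near n T c s' := by
  obtain ⟨c', h1, p, h2, z, h3⟩ := h
  exact ⟨c', h1.trans hs, p, le_trans (by exact_mod_cast h2) hN, z, h3⟩

/-- Fast returns to small discs about the critical value force a nearby attracting cycle. -/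
theorem returns {n : ℕ} (hn : 2 ≤ n) : ∃ ε r₀ : ℝ, 0 < ε ∧ 0 < r₀ ∧ r₀ < 1 ∧
    ∀ c ∈ N62a1eb23.multibrotSet n, ∀ r, 0 < r → r ≤ r₀ →
      Slow n c (1 / slow ε r) r ∨ Near n (1 / slow ε r + 2) c (slow ε r) := by
  obtain ⟨C, ε1, hC, hε1, h⟩ := Pool.Agent.T2H09.LW.pseudo hn
  -- the choice of `ε`
  obtain ⟨ε, hε0, hεC, hεε, hε1'⟩ : ∃ ε : ℝ, 0 < ε ∧ C * ε ^ 2 ≤ 1 / 2 ∧ 2 * ε ^ 2 ≤ ε1 ∧ ε ≤ 1 := by
    refine ⟨min 1 (min (1 / (2 * C)) (ε1 / 2)), by positivity, ?_, ?_, min_le_left _ _⟩
    · set e := min 1 (min (1 / (2 * C)) (ε1 / 2)) with he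
      have h0 : 0 < e := by positivity
      have h1 : e ≤ 1 := min_le_left _ _
      have h2 : e ≤ 1 / (2 * C) := (min_le_right _ _).trans (min_le_left _ _)
      have h3 : e ^ 2 ≤ e := by nlinarith
      calc C * e ^ 2 ≤ C * (1 / (2 * C)) := by gcongr; linarith
        _ = 1 / 2 := by field_simp
    · set e := min 1 (min (1 / (2 * C)) (ε1 / 2)) with he
      have h0 : 0 < e := by positivity
      have h1 : e ≤ 1 := min_le_left _ _
      have h2 : e ≤ ε1 / 2 := (min_le_right _ _).trans (min_le_right _ _)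
      nlinarith
  have hn2 : (2 : ℝ) ≤ n := by exact_mod_cast hn
  refine ⟨ε, Real.exp (-(4 * (n : ℝ) ^ 2)), hε0, Real.exp_pos _, ?_, ?_⟩
  · rw [Real.exp_lt_one_iff]
    nlinarith
  intro c hc r hr0 hr
  by_contra hcon
  push Not at hcon
  obtain ⟨h1, h2⟩ := hcon
  apply h2
  unfold Slow at h1
  push Not at h1
  obtain ⟨z, hz, k, hk1, hk2, hk3⟩ := h1
  set L := Real.log (1 / r) with hL
  have hrL : r = Real.exp (-L) := by
    rw [hL, one_div, Real.log_inv, neg_neg, Real.exp_log hr0]
  have hL1 : 4 * (n : ℝ) ^ 2 ≤ L := by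
    rw [hrL, Real.exp_le_exp] at hr
    linarith
  have hL0 : 16 ≤ L := by nlinarith
  have hsq0 : 0 ≤ √L := Real.sqrt_nonneg _
  have hsq : √L ^ 2 = L := Real.sq_sqrt (by linarith)
  have hsq2 : 2 * (n : ℝ) ≤ √L := by
    apply Real.le_sqrt_of_sq_le
    nlinarith
  have hslow : slow ε r = Real.exp (-(ε * √L)) := rfl
  have hr4 : 2 * r ≤ Real.exp (-(L / 2)) := by
    have e1 : r = Real.exp (-(L / 2)) * Real.exp (-(L / 2)) := by
      rw [← Real.exp_add, hrL]; ring_nf
    have e2 : Real.exp (-(L / 2)) ≤ 1 / 2 := by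
      rw [Real.exp_neg, inv_eq_one_div]
      apply one_div_le_one_div_of_le (by norm_num)
      have := Real.add_one_le_exp (L / 2)
      linarith
    have e3 : 0 < Real.exp (-(L / 2)) := Real.exp_pos _
    nlinarith
  rcases Nat.lt_or_ge k 2 with hk | hk
  · -- period one
    have hk1' : k = 1 := by omega
    subst hk1'
    have e1 : ‖z‖ ^ n ≤ r := by
      have e : (f n c)^[1] z - c = z ^ n := by simp [f]
      rw [← norm_pow, ← e]
      exact hk3
    have e2 : ‖z‖ ≤ Real.exp (-(L / n)) := by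
      by_contra h3
      push Not at h3
      have h4 : Real.exp (-(L / n)) ^ n < ‖z‖ ^ n := by
        apply pow_lt_pow_left₀ h3 (Real.exp_pos _).le (by omega)
      have h5 : Real.exp (-(L / n)) ^ n = r := by
        rw [← Real.exp_nat_mul, hrL]
        congr 1
        field_simp
      linarith
    have e3 : r ≤ Real.exp (-(L / n)) := by
      rw [hrL, Real.exp_le_exp]
      have : L / n ≤ L := div_le_self (by linarith) (by linarith)
      linarith
    have e4 : ‖c‖ ≤ 2 * Real.exp (-(L / n)) := by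
      calc ‖c‖ = ‖z - (z - c)‖ := by ring_nf
        _ ≤ ‖z‖ + ‖z - c‖ := norm_sub_le _ _
        _ ≤ _ := by linarith
    have e5 : 2 * Real.exp (-(L / n)) ≤ slow ε r := by
      rw [hslow]
      have h6 : 2 * √L ≤ L / n := by
        rw [le_div_iff₀ (by linarith)]
        nlinarith
      have h7 : ε * √L ≤ √L := by nlinarith
      have h8 : (2 : ℝ) ≤ Real.exp 1 := by linarith [Real.add_one_le_exp (1 : ℝ)]
      calc 2 * Real.exp (-(L / n)) ≤ Real.exp 1 * Real.exp (-(L / n)) := by gcongr
        _ = Real.exp (1 + -(L / n)) := by rw [Real.exp_add]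
        _ ≤ Real.exp (-(ε * √L)) := by
          apply Real.exp_le_exp.mpr
          nlinarith
    refine ⟨0, ?_, 1, ?_, 0, ?_⟩
    · rw [zero_sub, norm_neg]
      exact e4.trans e5
    · have : 0 < 1 / slow ε r := by have := slow_pos ε r; positivity
      push_cast
      linarith
    · refine ⟨one_pos, ?_, (differentiable_iter n 0 1) 0, ?_⟩
      · rw [Function.IsPeriodicPt, Function.IsFixedPt, Function.iterate_one]
        simp only [f, add_zero]
        exact zero_pow (by omega)
      · rw [Function.iterate_one, (hasDerivAt_f n 0 0).deriv, zero_pow (by omega)]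
        simp
  · -- the general case
    have hk2' : (2 : ℝ) ≤ k := by exact_mod_cast hk
    have hE : 1 / slow ε r = Real.exp (ε * √L) := by
      rw [hslow, Real.exp_neg, one_div, inv_inv]
    have hlk0 : 0 < Real.log k := Real.log_pos (by linarith)
    have hlk : Real.log k ≤ ε * √L := by
      rw [hE] at hk2
      rw [← Real.log_exp (ε * √L)]
      exact Real.log_le_log (by linarith) hk2
    have hmax : max ‖z - c‖ ‖orb n c z k - z‖ ≤ 2 * r := by
      apply max_le (by linarith)
      have e : orb n c z k = (f n c)^[k] z := rfl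
      rw [e]
      calc ‖(f n c)^[k] z - z‖ = ‖((f n c)^[k] z - c) - (z - c)‖ := by ring_nf
        _ ≤ ‖(f n c)^[k] z - c‖ + ‖z - c‖ := norm_sub_le _ _
        _ ≤ 2 * r := by linarith
    have hmax0 : 0 ≤ max ‖z - c‖ ‖orb n c z k - z‖ := le_max_of_le_left (norm_nonneg _)
    have h3 := h c hc k hk z (by
      refine hmax.trans (hr4.trans ?_)
      apply Real.exp_le_exp.mpr
      have h4 : Real.log k ^ 2 ≤ (ε * √L) ^ 2 := by gcongr
      have h5 : C * Real.log k ^ 2 ≤ L / 2 := by
        calc C * Real.log k ^ 2 ≤ C * (ε * √L) ^ 2 := by gcongr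
          _ = C * ε ^ 2 * L := by rw [mul_pow, hsq]; ring
          _ ≤ 1 / 2 * L := by gcongr
          _ = L / 2 := by ring
      linarith)
    refine near_of h3 ?_ (by push_cast; linarith)
    calc max ‖z - c‖ ‖orb n c z k - z‖ ^ (ε1 / Real.log k)
        ≤ Real.exp (-(L / 2)) ^ (ε1 / Real.log k) := by
          apply Real.rpow_le_rpow hmax0 (hmax.trans hr4) (by positivity)
      _ = Real.exp (-(L / 2) * (ε1 / Real.log k)) := by rw [← Real.exp_mul]
      _ ≤ slow ε r := by
        rw [hslow]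
        apply Real.exp_le_exp.mpr
        have h6 : ε * √L * Real.log k ≤ L / 2 * ε1 := by
          calc ε * √L * Real.log k ≤ ε * √L * (ε * √L) := by gcongr
            _ = ε ^ 2 * √L ^ 2 := by ring
            _ = ε ^ 2 * L := by rw [hsq]
            _ ≤ ε1 / 2 * L := by gcongr; linarith
            _ = L / 2 * ε1 := by ring
        have h7 : ε * √L ≤ L / 2 * (ε1 / Real.log k) := by
          rw [← mul_div_assoc, le_div_iff₀ hlk0]
          exact h6
        linarith

end Pool.Agent.U785.LE
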